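import Mathlib
import Pool.Agent.TH899.UG.PairsP

set_option autoImplicit false

/-! A relation without bad blow-ups of `K_4` contains a third of all pairs. -/

namespace Pool.Agent.Y860.TS

open Finset Pool.Agent.H362R2.CM Pool.Agent.TH899.UG

open Classical in
theorem box4 (K : ℕ) (ε : ℝ) (hε : 0 < ε) : ∃ m₀ : ℕ, ∀ m : ℕ, m₀ ≤ m →
    ∀ G : Fin m → Fin m → Prop, (∀ i j, G i j → G j i) →
    (∀ A : Fin 4 → Fin K → Fin m, Function.Injective (fun x : Fin 4 × Fin K => A x.1 x.2) →
      ∃ g g' : Fin 4, g ≠ g' ∧ ∃ i i', G (A g i) (A g' i')) →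
    (1 / 3 - ε) * (m : ℝ) ^ 2 ≤ (((univ : Finset (Fin m × Fin m)).filter
      (fun x => x.1 ≠ x.2 ∧ G x.1 x.2)).card : ℝ) := by
  obtain ⟨C, E, hC1, hbox⟩ := box_pow K 4
  obtain ⟨δ, hδ⟩ : ∃ δ : ℝ, δ = min (ε / 2) 1 := ⟨_, rfl⟩
  have hδ0 : 0 < δ := by rw [hδ]; exact lt_min (by linarith) one_pos
  have hδ1 : δ ≤ 1 := by rw [hδ]; exact min_le_right _ _
  have hδε : δ ≤ ε / 2 := by rw [hδ]; exact min_le_left _ _
  obtain ⟨m₁, hm₁⟩ := exists_nat_ge (C / (2 / 3 * δ) ^ E)
  obtain ⟨m₂, hm₂⟩ := exists_nat_ge (2 / ε)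
  refine ⟨m₁ + m₂ + 1, fun m hm G hG hno => ?_⟩
  by_contra hcon
  have hcon := not_le.1 hcon
  have hm0 : 0 < m := by omega
  have hmr : (0 : ℝ) < m := by exact_mod_cast hm0
  have hme : (m : ℝ) ≤ ε / 2 * (m : ℝ) ^ 2 := by
    have h1 : (2 : ℝ) / ε ≤ m := hm₂.trans (by exact_mod_cast (by omega : m₂ ≤ m))
    rw [div_le_iff₀ hε] at h1
    nlinarith
  set Cr : Fin m → Fin m → Prop := fun i j => i ≠ j ∧ ¬ G i j with hCr
  have hCs : ∀ x y, Cr x y → Cr y x := fun x y h => ⟨h.1.symm, fun h' => h.2 (hG _ _ h')⟩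
  set V : Finset (Fin m) := univ with hV
  have hVc : V.card = m := by rw [hV, card_univ, Fintype.card_fin]
  -- the number of bad pairs
  have h2 : ((clq V Cr 2).card : ℝ) = (((univ : Finset (Fin m × Fin m)).filter
      (fun x => Cr x.1 x.2)).card : ℝ) := by
    congr 1
    apply Finset.card_bij (fun f _ => (f 0, f 1))
    · intro f hf
      rw [mem_clq] at hf
      rw [mem_filter]
      exact ⟨mem_univ _, hf.2 0 1 (by decide)⟩
    · intro f _ f' _ h
      simp only [Prod.mk.injEq] at h
      funext i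
      fin_cases i
      · exact h.1
      · exact h.2
    · intro x hx
      rw [mem_filter] at hx
      refine ⟨![x.1, x.2], ?_, by simp⟩
      rw [mem_clq]
      constructor
      · intro i
        exact mem_univ _
      · intro i j hij
        fin_cases i <;> fin_cases j
        · exact absurd rfl hij
        · exact hx.2
        · exact hCs _ _ hx.2
        · exact absurd rfl hij
  have h3 : ((univ : Finset (Fin m × Fin m)).filter (fun x => Cr x.1 x.2)).card +
      ((univ : Finset (Fin m × Fin m)).filter (fun x => x.1 ≠ x.2 ∧ G x.1 x.2)).card + m = m ^ 2 := by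
    have e1 : ((univ : Finset (Fin m × Fin m)).filter (fun x => x.1 = x.2)).card = m := by
      have : (univ : Finset (Fin m × Fin m)).filter (fun x => x.1 = x.2) =
          (univ : Finset (Fin m)).image (fun i => (i, i)) := by
        ext ⟨i, j⟩
        simp only [mem_filter, mem_univ, true_and, mem_image, Prod.mk.injEq]
        constructor
        · rintro rfl; exact ⟨i, rfl, rfl⟩
        · rintro ⟨k, rfl, rfl⟩; rfl
      rw [this, card_image_of_injective, card_univ, Fintype.card_fin]
      intro i j h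
      exact (Prod.mk.inj h).1
    have e2 := Finset.card_filter_add_card_filter_not (s := (univ : Finset (Fin m × Fin m)))
      (fun x => x.1 = x.2)
    rw [card_univ, Fintype.card_prod, Fintype.card_fin, e1, ← sq] at e2
    have e3 := Finset.card_filter_add_card_filter_not
      (s := (univ : Finset (Fin m × Fin m)).filter (fun x => ¬ x.1 = x.2)) (fun x => G x.1 x.2)
    rw [filter_filter, filter_filter] at e3
    have e4 : (univ : Finset (Fin m × Fin m)).filter (fun x => Cr x.1 x.2) =
        (univ : Finset (Fin m × Fin m)).filter (fun x => ¬ x.1 = x.2 ∧ ¬ G x.1 x.2) := by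
      apply filter_congr
      intro x _
      rfl
    rw [e4]
    have e5 : ((univ : Finset (Fin m × Fin m)).filter (fun x => x.1 ≠ x.2 ∧ G x.1 x.2)).card =
        ((univ : Finset (Fin m × Fin m)).filter (fun x => ¬ x.1 = x.2 ∧ G x.1 x.2)).card := rfl
    omega
  have h3r : (((univ : Finset (Fin m × Fin m)).filter (fun x => Cr x.1 x.2)).card : ℝ) +
      (((univ : Finset (Fin m × Fin m)).filter (fun x => x.1 ≠ x.2 ∧ G x.1 x.2)).card : ℝ) + m =
      (m : ℝ) ^ 2 := by exact_mod_cast h3
  have h4 := turan4 V Cr hCs (by rw [hVc]; exact hm0) δ hδ0 (by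
    rw [h2, hVc]
    nlinarith [sq_nonneg (m : ℝ)])
  obtain ⟨A, hA1, hA2⟩ := hbox (2 / 3 * δ) (by positivity) (by linarith) (Fin m) (fun _ => V)
    (fun _ => by rw [hVc]; exact hm₁.trans (by exact_mod_cast (by omega : m₁ ≤ m))) (clq V Cr 4)
    (by
      intro f hf
      rw [mem_clq] at hf
      rw [Fintype.mem_piFinset]
      exact hf.1)
    (by
      refine le_trans (le_of_eq ?_) h4
      have e6 : (univ : Finset (Fin 4)).card = 4 := by simp
      rw [prod_const, e6])
  have hcross : ∀ g g' : Fin 4, g ≠ g' → ∀ i i', Cr (A g i) (A g' i') := by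
    intro g g' hgg i i'
    have h5 := hA2 (fun k => if k = g then i else i')
    rw [mem_clq] at h5
    have h6 := h5.2 g g' hgg
    simp only [if_true, if_neg hgg.symm] at h6
    exact h6
  obtain ⟨g, g', hgg, i, i', hGG⟩ := hno A (by
    rintro ⟨g, i⟩ ⟨g', i'⟩ h
    simp only at h
    by_cases hgg : g = g'
    · subst hgg
      rw [hA1 g h]
    · exact absurd h (hcross g g' hgg i i').1)
  exact (hcross g g' hgg i i').2 hGG

end Pool.Agent.Y860.TS
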