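import Mathlib

set_option autoImplicit false

/-! Sampling: from tuples in general position to all pairs. -/

namespace Pool.Agent.Y860.TS

open Finset

/-- The number of tuples with prescribed values at two different places. -/
theorem card_fix_two {α : Type*} [DecidableEq α] (Y : Finset α) (m : ℕ) (i j : Fin m)
    (hij : i ≠ j) (P : α → α → Prop) [DecidableRel P] :
    ((Fintype.piFinset (fun _ : Fin m => Y)).filter (fun w => P (w i) (w j))).card =
      ((Y ×ˢ Y).filter (fun x => P x.1 x.2)).card * Y.card ^ (m - 2) := by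
  classical
  set Z : Finset (α × α) := (Y ×ˢ Y).filter (fun x => P x.1 x.2) with hZ
  have h1 : ((Fintype.piFinset (fun _ : Fin m => Y)).filter (fun w => P (w i) (w j))) =
      Z.biUnion (fun x => (Fintype.piFinset (fun l : Fin m => if l = i then {x.1} else if l = j then {x.2} else Y))) := by
    ext w
    simp only [mem_filter, Fintype.mem_piFinset, mem_biUnion, hZ, mem_product]
    constructor
    · rintro ⟨hw, hP⟩
      refine ⟨(w i, w j), ⟨⟨hw i, hw j⟩, hP⟩, fun l => ?_⟩
      by_cases h : l = i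
      · subst h; simp
      · by_cases h' : l = j
        · subst h'; simp [h]
        · simp [h, h', hw l]
    · rintro ⟨x, ⟨⟨hx1, hx2⟩, hP⟩, hw⟩
      have hwi : w i = x.1 := by have := hw i; simpa using this
      have hwj : w j = x.2 := by have := hw j; simpa [hij.symm] using this
      refine ⟨fun l => ?_, by rw [hwi, hwj]; exact hP⟩
      by_cases h : l = i
      · rw [h, hwi]; exact hx1
      · by_cases h' : l = j
        · rw [h', hwj]; exact hx2
        · have := hw l
          simpa [h, h'] using this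
  rw [h1, card_biUnion]
  · have h2 : ∀ x ∈ Z, (Fintype.piFinset (fun l : Fin m => if l = i then ({x.1} : Finset α)
        else if l = j then {x.2} else Y)).card = Y.card ^ (m - 2) := by
      intro x _
      rw [Fintype.card_piFinset]
      have h3 : ∀ l : Fin m, (if l = i then ({x.1} : Finset α) else if l = j then {x.2} else Y).card =
          if l ∈ ({i, j} : Finset (Fin m)) then 1 else Y.card := by
        intro l
        by_cases h : l = i
        · simp [h]
        · by_cases h' : l = j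
          · simp [h']
            split_ifs <;> simp
          · simp [h, h']
      rw [Finset.prod_congr rfl (fun l _ => h3 l), Finset.prod_ite, prod_const_one, one_mul, prod_const]
      congr 1
      rw [filter_not, card_sdiff_of_subset (filter_subset _ _)]
      have h4 : (univ.filter (fun l : Fin m => l ∈ ({i, j} : Finset (Fin m)))) = {i, j} := by
        ext l; simp
      rw [h4, card_pair hij, card_univ, Fintype.card_fin]
    rw [sum_congr rfl h2, sum_const, smul_eq_mul]
  · intro x _ y _ hxy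
    rw [Function.onFun, disjoint_left]
    intro w hw1 hw2
    rw [Fintype.mem_piFinset] at hw1 hw2
    apply hxy
    have a1 : w i = x.1 := by have := hw1 i; simpa using this
    have a2 : w i = y.1 := by have := hw2 i; simpa using this
    have b1 : w j = x.2 := by have := hw1 j; simpa [hij.symm] using this
    have b2 : w j = y.2 := by have := hw2 j; simpa [hij.symm] using this
    exact Prod.ext (a1.symm.trans a2) (b1.symm.trans b2)

/-- The number of tuples with a prescribed value at one place. -/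
theorem card_fix_one {α : Type*} [DecidableEq α] (Y : Finset α) (m : ℕ) (i : Fin m)
    (P : α → Prop) [DecidablePred P] :
    ((Fintype.piFinset (fun _ : Fin m => Y)).filter (fun w => P (w i))).card =
      (Y.filter P).card * Y.card ^ (m - 1) := by
  classical
  have h1 : ((Fintype.piFinset (fun _ : Fin m => Y)).filter (fun w => P (w i))) =
      Fintype.piFinset (fun l : Fin m => if l = i then Y.filter P else Y) := by
    ext w
    simp only [mem_filter, Fintype.mem_piFinset]
    constructor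
    · rintro ⟨hw, hP⟩ l
      by_cases h : l = i
      · subst h; simp [hw l, hP]
      · simp [h, hw l]
    · intro hw
      have hwi := hw i
      simp only [if_true, mem_filter] at hwi
      refine ⟨fun l => ?_, hwi.2⟩
      by_cases h : l = i
      · rw [h]; exact hwi.1
      · have := hw l
        simpa [h] using this
  rw [h1, Fintype.card_piFinset]
  have h3 : ∀ l : Fin m, (if l = i then Y.filter P else Y).card =
      if l = i then (Y.filter P).card else Y.card := by
    intro l
    split_ifs <;> rfl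
  rw [Finset.prod_congr rfl (fun l _ => h3 l), Finset.prod_ite, prod_const, prod_const]
  have h4 : (univ.filter (fun l : Fin m => l = i)) = {i} := by ext l; simp
  rw [filter_not, card_sdiff_of_subset (filter_subset _ _), h4, card_singleton, pow_one, card_univ,
    Fintype.card_fin]

open Classical in
/-- If in every tuple in general position a proportion `θ` of the ordered pairs is good, and if few
elements and few pairs are not in general position, then nearly a proportion `θ` of all pairs is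
good. -/
theorem sampling {α : Type*} [DecidableEq α] (Y : Finset α) (m : ℕ) (hm : 2 ≤ m)
    (Q : α → Prop) (P : α → α → Prop) (G : α → α → Prop) (θ η₁ η₂ : ℝ) (hθ : 0 ≤ θ)
    (hgen : ∀ w : Fin m → α, (∀ i, w i ∈ Y) → (∀ i, Q (w i)) → (∀ i j, i ≠ j → P (w i) (w j)) →
      θ * (m : ℝ) ^ 2 ≤ (((univ : Finset (Fin m × Fin m)).filter
        (fun x => x.1 ≠ x.2 ∧ G (w x.1) (w x.2))).card : ℝ))
    (h1 : ((Y.filter (fun y => ¬ Q y)).card : ℝ) ≤ η₁ * Y.card)
    (h2 : (((Y ×ˢ Y).filter (fun x => ¬ P x.1 x.2)).card : ℝ) ≤ η₂ * (Y.card : ℝ) ^ 2) :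
    θ * (1 - m * η₁ - (m : ℝ) ^ 2 * η₂) * (Y.card : ℝ) ^ 2 ≤
      (((Y ×ˢ Y).filter (fun x => G x.1 x.2)).card : ℝ) := by
  set N : ℕ := Y.card with hN
  set g : ℕ := ((Y ×ˢ Y).filter (fun x => G x.1 x.2)).card with hg
  rcases Nat.eq_zero_or_pos N with h0 | hNpos
  · rw [h0]; simp
  have hNr : (0 : ℝ) < N := by exact_mod_cast hNpos
  set Om : Finset (Fin m → α) := Fintype.piFinset (fun _ : Fin m => Y) with hOm
  have hOmc : Om.card = N ^ m := by
    rw [hOm, Fintype.card_piFinset]; simp [hN]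
  set Gen : Finset (Fin m → α) := Om.filter (fun w => (∀ i, Q (w i)) ∧ ∀ i j, i ≠ j → P (w i) (w j))
    with hGen
  -- the bad tuples
  have hbad : ((Om.filter (fun w => ¬ ((∀ i, Q (w i)) ∧ ∀ i j, i ≠ j → P (w i) (w j)))).card : ℝ) ≤
      (m * η₁ + (m : ℝ) ^ 2 * η₂) * (N : ℝ) ^ m := by
    have hsub : Om.filter (fun w => ¬ ((∀ i, Q (w i)) ∧ ∀ i j, i ≠ j → P (w i) (w j))) ⊆
        ((univ : Finset (Fin m)).biUnion (fun i => Om.filter (fun w => ¬ Q (w i)))) ∪
        (((univ : Finset (Fin m × Fin m)).filter (fun x => x.1 ≠ x.2)).biUnion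
          (fun x => Om.filter (fun w => ¬ P (w x.1) (w x.2)))) := by
      intro w hw
      rw [mem_filter] at hw
      rw [mem_union, mem_biUnion, mem_biUnion]
      by_cases hQ : ∀ i, Q (w i)
      · right
        have h3 : ¬ ∀ i j, i ≠ j → P (w i) (w j) := fun h => hw.2 ⟨hQ, h⟩
        push Not at h3
        obtain ⟨i, j, hij, hP⟩ := h3
        exact ⟨(i, j), mem_filter.2 ⟨mem_univ _, hij⟩, mem_filter.2 ⟨hw.1, hP⟩⟩
      · left
        push Not at hQ
        obtain ⟨i, hi⟩ := hQ
        exact ⟨i, mem_univ _, mem_filter.2 ⟨hw.1, hi⟩⟩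
    have hc := (card_le_card hsub).trans (card_union_le _ _)
    have hc1 : (((univ : Finset (Fin m)).biUnion (fun i => Om.filter (fun w => ¬ Q (w i)))).card : ℝ) ≤
        m * η₁ * (N : ℝ) ^ m := by
      have e1 : ((univ : Finset (Fin m)).biUnion (fun i => Om.filter (fun w => ¬ Q (w i)))).card ≤
          ∑ i : Fin m, (Om.filter (fun w => ¬ Q (w i))).card := card_biUnion_le
      have e2 : ∀ i : Fin m, (Om.filter (fun w => ¬ Q (w i))).card =
          (Y.filter (fun y => ¬ Q y)).card * N ^ (m - 1) := fun i =>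
        card_fix_one Y m i (fun y => ¬ Q y)
      rw [sum_congr rfl (fun i _ => e2 i), sum_const, card_univ, Fintype.card_fin, smul_eq_mul] at e1
      have e3 : (((univ : Finset (Fin m)).biUnion (fun i => Om.filter (fun w => ¬ Q (w i)))).card : ℝ) ≤
          m * (((Y.filter (fun y => ¬ Q y)).card : ℝ) * (N : ℝ) ^ (m - 1)) := by exact_mod_cast e1
      refine e3.trans ?_
      have e4 : (N : ℝ) ^ m = N * (N : ℝ) ^ (m - 1) := by
        rw [← pow_succ']; congr 1; omega
      rw [e4, mul_assoc]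
      refine mul_le_mul_of_nonneg_left ?_ (Nat.cast_nonneg _)
      calc ((Y.filter (fun y => ¬ Q y)).card : ℝ) * (N : ℝ) ^ (m - 1)
          ≤ (η₁ * N) * (N : ℝ) ^ (m - 1) := mul_le_mul_of_nonneg_right h1 (by positivity)
        _ = η₁ * (N * (N : ℝ) ^ (m - 1)) := by ring
    have hc2 : (((((univ : Finset (Fin m × Fin m)).filter (fun x => x.1 ≠ x.2)).biUnion
          (fun x => Om.filter (fun w => ¬ P (w x.1) (w x.2)))).card : ℕ) : ℝ) ≤
        (m : ℝ) ^ 2 * η₂ * (N : ℝ) ^ m := by
      have e1 : (((univ : Finset (Fin m × Fin m)).filter (fun x => x.1 ≠ x.2)).biUnion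
          (fun x => Om.filter (fun w => ¬ P (w x.1) (w x.2)))).card ≤
          ∑ x ∈ (univ : Finset (Fin m × Fin m)).filter (fun x => x.1 ≠ x.2),
            (Om.filter (fun w => ¬ P (w x.1) (w x.2))).card := card_biUnion_le
      have e2 : ∀ x ∈ (univ : Finset (Fin m × Fin m)).filter (fun x => x.1 ≠ x.2),
          (Om.filter (fun w => ¬ P (w x.1) (w x.2))).card =
          ((Y ×ˢ Y).filter (fun x => ¬ P x.1 x.2)).card * N ^ (m - 2) := fun x hx =>
        card_fix_two Y m x.1 x.2 (mem_filter.1 hx).2 (fun a b => ¬ P a b)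
      rw [sum_congr rfl e2, sum_const, smul_eq_mul] at e1
      have e5 : ((univ : Finset (Fin m × Fin m)).filter (fun x => x.1 ≠ x.2)).card ≤ m ^ 2 := by
        refine (card_filter_le _ _).trans ?_
        rw [card_univ, Fintype.card_prod, Fintype.card_fin, sq]
      have e6 := e1.trans (Nat.mul_le_mul_right _ e5)
      have e3 : (((((univ : Finset (Fin m × Fin m)).filter (fun x => x.1 ≠ x.2)).biUnion
          (fun x => Om.filter (fun w => ¬ P (w x.1) (w x.2)))).card : ℕ) : ℝ) ≤
          (m : ℝ) ^ 2 * ((((Y ×ˢ Y).filter (fun x => ¬ P x.1 x.2)).card : ℝ) * (N : ℝ) ^ (m - 2)) := by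
        exact_mod_cast e6
      refine e3.trans ?_
      have e4 : (N : ℝ) ^ m = (N : ℝ) ^ 2 * (N : ℝ) ^ (m - 2) := by
        rw [← pow_add]; congr 1; omega
      rw [e4, mul_assoc]
      refine mul_le_mul_of_nonneg_left ?_ (by positivity)
      calc ((((Y ×ˢ Y).filter (fun x => ¬ P x.1 x.2)).card : ℝ) * (N : ℝ) ^ (m - 2))
          ≤ (η₂ * (N : ℝ) ^ 2) * (N : ℝ) ^ (m - 2) := mul_le_mul_of_nonneg_right h2 (by positivity)
        _ = η₂ * ((N : ℝ) ^ 2 * (N : ℝ) ^ (m - 2)) := by ring
    have hc' : ((Om.filter (fun w => ¬ ((∀ i, Q (w i)) ∧ ∀ i j, i ≠ j → P (w i) (w j)))).card : ℝ) ≤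
        (((univ : Finset (Fin m)).biUnion (fun i => Om.filter (fun w => ¬ Q (w i)))).card : ℝ) +
        (((((univ : Finset (Fin m × Fin m)).filter (fun x => x.1 ≠ x.2)).biUnion
          (fun x => Om.filter (fun w => ¬ P (w x.1) (w x.2)))).card : ℕ) : ℝ) := by exact_mod_cast hc
    refine hc'.trans ((add_le_add hc1 hc2).trans (le_of_eq ?_))
    ring
  have hgenc : (1 - m * η₁ - (m : ℝ) ^ 2 * η₂) * (N : ℝ) ^ m ≤ (Gen.card : ℝ) := by
    have e1 : (Gen.card : ℝ) + ((Om.filter (fun w => ¬ ((∀ i, Q (w i)) ∧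
        ∀ i j, i ≠ j → P (w i) (w j)))).card : ℝ) = (N : ℝ) ^ m := by
      have e2 := Finset.card_filter_add_card_filter_not (s := Om)
        (fun w => (∀ i, Q (w i)) ∧ ∀ i j, i ≠ j → P (w i) (w j))
      rw [hOmc] at e2
      exact_mod_cast e2
    linarith
  -- double counting
  have hdc : θ * (m : ℝ) ^ 2 * Gen.card ≤ (m : ℝ) ^ 2 * ((g : ℝ) * (N : ℝ) ^ (m - 2)) := by
    have e1 : θ * (m : ℝ) ^ 2 * Gen.card ≤ ∑ w ∈ Gen, (((univ : Finset (Fin m × Fin m)).filter
        (fun x => x.1 ≠ x.2 ∧ G (w x.1) (w x.2))).card : ℝ) := by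
      calc θ * (m : ℝ) ^ 2 * Gen.card = ∑ w ∈ Gen, θ * (m : ℝ) ^ 2 := by
            rw [sum_const, nsmul_eq_mul]; ring
        _ ≤ _ := sum_le_sum fun w hw => by
            rw [hGen, mem_filter, hOm, Fintype.mem_piFinset] at hw
            exact hgen w hw.1 hw.2.1 hw.2.2
    have e2 : ∑ w ∈ Gen, ((univ : Finset (Fin m × Fin m)).filter
        (fun x => x.1 ≠ x.2 ∧ G (w x.1) (w x.2))).card ≤ ∑ w ∈ Om,
          ((univ : Finset (Fin m × Fin m)).filter
        (fun x => x.1 ≠ x.2 ∧ G (w x.1) (w x.2))).card :=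
      sum_le_sum_of_subset (filter_subset _ _)
    have e3 : ∑ w ∈ Om, ((univ : Finset (Fin m × Fin m)).filter
        (fun x => x.1 ≠ x.2 ∧ G (w x.1) (w x.2))).card =
        ∑ x ∈ (univ : Finset (Fin m × Fin m)).filter (fun x => x.1 ≠ x.2),
          (Om.filter (fun w => G (w x.1) (w x.2))).card := by
      have e4 : ∀ w ∈ Om, ((univ : Finset (Fin m × Fin m)).filter
        (fun x => x.1 ≠ x.2 ∧ G (w x.1) (w x.2))).card =
        ∑ x ∈ (univ : Finset (Fin m × Fin m)).filter (fun x => x.1 ≠ x.2),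
          if G (w x.1) (w x.2) then 1 else 0 := by
        intro w _
        rw [← filter_filter, card_filter]
      rw [sum_congr rfl e4, sum_comm]
      refine sum_congr rfl fun x _ => ?_
      rw [card_filter]
    have e5 : ∀ x ∈ (univ : Finset (Fin m × Fin m)).filter (fun x => x.1 ≠ x.2),
        (Om.filter (fun w => G (w x.1) (w x.2))).card = g * N ^ (m - 2) := fun x hx =>
      card_fix_two Y m x.1 x.2 (mem_filter.1 hx).2 G
    rw [e3, sum_congr rfl e5, sum_const, smul_eq_mul] at e2
    have e6 : ((univ : Finset (Fin m × Fin m)).filter (fun x => x.1 ≠ x.2)).card ≤ m ^ 2 := by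
      refine (card_filter_le _ _).trans ?_
      rw [card_univ, Fintype.card_prod, Fintype.card_fin, sq]
    have e7 := e2.trans (Nat.mul_le_mul_right _ e6)
    refine e1.trans ?_
    exact_mod_cast e7
  have hm0 : (0 : ℝ) < (m : ℝ) ^ 2 := by positivity
  have h5 : θ * Gen.card ≤ (g : ℝ) * (N : ℝ) ^ (m - 2) := by
    have : (m : ℝ) ^ 2 * (θ * Gen.card) ≤ (m : ℝ) ^ 2 * ((g : ℝ) * (N : ℝ) ^ (m - 2)) := by
      calc (m : ℝ) ^ 2 * (θ * Gen.card) = θ * (m : ℝ) ^ 2 * Gen.card := by ring
        _ ≤ _ := hdc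
    exact le_of_mul_le_mul_left this hm0
  have h6 : θ * ((1 - m * η₁ - (m : ℝ) ^ 2 * η₂) * (N : ℝ) ^ m) ≤ (g : ℝ) * (N : ℝ) ^ (m - 2) :=
    (mul_le_mul_of_nonneg_left hgenc hθ).trans h5
  have h7 : (N : ℝ) ^ m = (N : ℝ) ^ 2 * (N : ℝ) ^ (m - 2) := by
    rw [← pow_add]; congr 1; omega
  have h8 : (0 : ℝ) < (N : ℝ) ^ (m - 2) := by positivity
  have h9 : (θ * (1 - m * η₁ - (m : ℝ) ^ 2 * η₂) * (N : ℝ) ^ 2) * (N : ℝ) ^ (m - 2) ≤
      (g : ℝ) * (N : ℝ) ^ (m - 2) := by
    refine le_trans (le_of_eq ?_) h6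
    rw [h7]; ring
  exact le_of_mul_le_mul_right h9 h8

end Pool.Agent.Y860.TS
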