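import Mathlib
import Pool.Agent.H361R2.Bridge

set_option autoImplicit false

/-! Linear forms `A_i n + B_i` with `r_i (A_i n + B_i) = R n + T + h_i`. -/

namespace Pool.Agent.Y860.TS

open Finset

theorem rough_part {z E r : ℕ} (hr : 1 ≤ r) (h : ∀ p : ℕ, p.Prime → p ≤ z → ¬ p ^ E ∣ r) :
    Nat.Coprime (r / Nat.gcd r (z.factorial ^ E)) z.factorial := by
  set M : ℕ := z.factorial ^ E with hM
  set g : ℕ := Nat.gcd r M with hg
  have hgpos : 0 < g := Nat.gcd_pos_of_pos_left _ hr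
  by_contra hcon
  obtain ⟨p, hp, h1, h2⟩ := Nat.Prime.not_coprime_iff_dvd.1 hcon
  have hpz : p ≤ z := (Nat.Prime.dvd_factorial hp).1 h2
  apply h p hp hpz
  have h3 : p ^ E ∣ M := pow_dvd_pow_of_dvd h2 E
  have h4 : M = g * (M / g) := (Nat.mul_div_cancel' (Nat.gcd_dvd_right _ _)).symm
  have h5 : Nat.Coprime (r / g) (M / g) := Nat.coprime_div_gcd_div_gcd hgpos
  have h6 : Nat.Coprime p (M / g) := Nat.Coprime.coprime_dvd_left h1 h5
  have h7 : Nat.Coprime (p ^ E) (M / g) := Nat.Coprime.pow_left E h6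
  rw [h4] at h3
  exact (h7.dvd_of_dvd_mul_right h3).trans (Nat.gcd_dvd_left _ _)

theorem exists_res {Q ρ h : ℕ} (hρ : 1 ≤ ρ) (hc : Nat.Coprime Q ρ) : ∃ a : ℕ, ρ ∣ Q * a + h := by
  obtain ⟨u, v, huv⟩ := (Nat.isCoprime_iff_coprime.2 hc)
  have hρz : (0 : ℤ) < ρ := by exact_mod_cast hρ
  refine ⟨((-(h : ℤ) * u) % ρ).toNat, ?_⟩
  have h1 : ((((-(h : ℤ) * u) % ρ).toNat : ℕ) : ℤ) = (-(h : ℤ) * u) % ρ :=
    Int.toNat_of_nonneg (Int.emod_nonneg _ hρz.ne')
  rw [← Int.natCast_dvd_natCast]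
  push_cast
  rw [h1]
  have h2 : (-(h : ℤ) * u) % ρ = (-(h : ℤ) * u) - ρ * ((-(h : ℤ) * u) / ρ) := Int.emod_def _ _
  rw [h2]
  refine ⟨h * v - Q * ((-(h : ℤ) * u) / ρ), ?_⟩
  have h3 : (h : ℤ) = h * (u * Q + v * ρ) := by rw [huv, mul_one]
  linear_combination h3

theorem exists_forms {m z : ℕ} (hmz : m ≤ z) (r s ρ h : Fin m → ℕ) (E : ℕ)
    (hs : ∀ i, s i ∣ z.factorial ^ E) (hr : ∀ i, r i = s i * ρ i) (hrpos : ∀ i, 1 ≤ r i)
    (hρ : ∀ i, Nat.Coprime (ρ i) z.factorial)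
    (hh : ∀ i, ∃ k, h i = s i * (1 + z.factorial * k))
    (hP1 : ∀ i j, i ≠ j → Nat.Coprime (ρ i) (ρ j))
    (hP2 : ∀ i j, i ≠ j → ∀ l : ℕ, l.Prime → z < l → l ∣ r i → ¬ (l : ℤ) ∣ (h i : ℤ) - h j) :
    ∃ (A : Fin m → ℤ) (β : Fin m → ℤ) (R T : ℤ), 0 < R ∧ (∀ i, 0 < A i) ∧
      (∀ i, (r i : ℤ) * A i = R) ∧ (∀ i, (r i : ℤ) * β i = T + h i) ∧
      ∀ p : ℕ, p.Prime → ∃ n : ℤ, ∀ i, ¬ (p : ℤ) ∣ A i * n + β i := by
  have hspos : ∀ i, 1 ≤ s i := fun i => by
    have := hrpos i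
    rw [hr i] at this
    exact Nat.pos_of_ne_zero (fun h0 => by rw [h0] at this; simp at this)
  have hρpos : ∀ i, 1 ≤ ρ i := fun i => by
    have := hrpos i
    rw [hr i] at this
    exact Nat.pos_of_ne_zero (fun h0 => by rw [h0] at this; simp at this)
  set W : ℕ := z.factorial with hW
  have hWpos : 1 ≤ W := Nat.factorial_pos z
  set Q : ℕ := W * ∏ i, s i with hQ
  have hQpos : 1 ≤ Q := Nat.mul_pos hWpos (Finset.prod_pos fun i _ => hspos i)
  have hρs : ∀ i j, Nat.Coprime (ρ i) (s j) := fun i j =>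
    Nat.Coprime.coprime_dvd_right (hs j) (Nat.Coprime.pow_right E (hρ i))
  have hρQ : ∀ i, Nat.Coprime Q (ρ i) := fun i => by
    rw [hQ]
    exact Nat.Coprime.mul_left (hρ i).symm (Nat.Coprime.prod_left fun j _ => (hρs i j).symm)
  choose a ha using fun i => exists_res (h := h i) (hρpos i) (hρQ i)
  obtain ⟨T', hT'⟩ := Nat.chineseRemainderOfFinset a ρ (univ : Finset (Fin m))
    (fun i _ => (Nat.one_le_iff_ne_zero.1 (hρpos i))) (fun i _ j _ hij => hP1 i j hij)
  have hT1 : ∀ i, ρ i ∣ Q * T' + h i := fun i => by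
    have h1 : Q * T' + h i ≡ Q * a i + h i [MOD ρ i] :=
      Nat.ModEq.add_right _ (Nat.ModEq.mul_left _ (hT' i (mem_univ i)))
    exact (h1.dvd_iff (dvd_refl _)).2 (ha i)
  have hT2 : ∀ i, s i ∣ Q * T' + h i := fun i => by
    refine dvd_add (Dvd.dvd.mul_right ?_ _) ?_
    · rw [hQ]
      exact Dvd.dvd.mul_left (Finset.dvd_prod_of_mem _ (mem_univ i)) _
    · obtain ⟨k, hk⟩ := hh i
      rw [hk]; exact dvd_mul_right _ _
  have hT3 : ∀ i, r i ∣ Q * T' + h i := fun i => by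
    rw [hr i]
    exact Nat.Coprime.mul_dvd_of_dvd_of_dvd (hρs i i).symm (hT2 i) (hT1 i)
  set R : ℕ := Q * ∏ i, ρ i with hR
  have hRpos : 1 ≤ R := Nat.mul_pos hQpos (Finset.prod_pos fun i _ => hρpos i)
  have hrR : ∀ i, r i ∣ R := fun i => by
    rw [hr i, hR]
    refine mul_dvd_mul ?_ (Finset.dvd_prod_of_mem _ (mem_univ i))
    rw [hQ]
    exact Dvd.dvd.mul_left (Finset.dvd_prod_of_mem _ (mem_univ i)) _
  choose A hA using hrR
  choose β hβ using hT3
  have hApos : ∀ i, 0 < A i := fun i => Nat.pos_of_ne_zero fun h0 => by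
    have := hA i
    rw [h0, mul_zero] at this
    omega
  refine ⟨fun i => A i, fun i => β i, R, (Q : ℤ) * T', by exact_mod_cast hRpos,
    fun i => Int.natCast_pos.2 (hApos i), fun i => ?_,
    fun i => ?_, ?_⟩
  · show (r i : ℤ) * (A i : ℤ) = R
    exact_mod_cast (hA i).symm
  · show (r i : ℤ) * (β i : ℤ) = (Q : ℤ) * T' + h i
    exact_mod_cast (hβ i).symm
  intro p hp
  by_cases hpz : p ≤ z
  · -- small primes
    refine ⟨0, fun i => ?_⟩
    rw [mul_zero, zero_add]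
    intro hd
    have hd' : p ∣ β i := Int.natCast_dvd_natCast.1 hd
    obtain ⟨k, hk⟩ := hh i
    have hpW : p ∣ W := (Nat.Prime.dvd_factorial hp).2 hpz
    -- divide by s i
    have e1 : s i * (ρ i * β i) = s i * (W * ((∏ j ∈ univ.erase i, s j) * T') + (1 + W * k)) := by
      have e2 := hβ i
      rw [hr i, hk, hQ] at e2
      rw [← Finset.mul_prod_erase univ s (mem_univ i)] at e2
      rw [← mul_assoc, ← e2]
      ring
    have e3 : ρ i * β i = W * ((∏ j ∈ univ.erase i, s j) * T') + (1 + W * k) :=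
      Nat.eq_of_mul_eq_mul_left (hspos i) e1
    have e4 : p ∣ W * ((∏ j ∈ univ.erase i, s j) * T') + (1 + W * k) := by
      rw [← e3]; exact Dvd.dvd.mul_left hd' _
    have e5 : p ∣ 1 + W * k := (Nat.dvd_add_right (Dvd.dvd.mul_right hpW _)).1 e4
    have e6 : p ∣ 1 := (Nat.dvd_add_left (Dvd.dvd.mul_right hpW _)).1 e5
    exact hp.one_lt.ne' (Nat.dvd_one.1 e6)
  · have hzp : z < p := not_le.1 hpz
    have hpW : Nat.Coprime p W := by
      rw [Nat.Prime.coprime_iff_not_dvd hp]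
      exact fun h => hpz ((Nat.Prime.dvd_factorial hp).1 h)
    have hps : ∀ j, ¬ p ∣ s j := fun j hd => by
      have h1 := hd.trans (hs j)
      have h2 := hp.dvd_of_dvd_pow h1
      exact (Nat.Prime.coprime_iff_not_dvd hp).1 hpW h2
    obtain ⟨n, hn⟩ := Pool.Agent.H361R2.exists_avoid' hp (lt_of_le_of_lt hmz hzp)
      (fun i => (A i : ℤ)) (fun i => (β i : ℤ)) (by
        rintro i ⟨h1, h2⟩
        have h1' : p ∣ A i := by exact_mod_cast h1
        have h2' : p ∣ β i := by exact_mod_cast h2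
        -- A i = (Q / s i) * prod of the others
        have e1 : s i * ρ i * A i = s i * ρ i * ((W * ∏ j ∈ univ.erase i, s j) *
            ∏ j ∈ univ.erase i, ρ j) := by
          have e2 := hA i
          rw [hr i, hR, hQ, ← Finset.mul_prod_erase univ s (mem_univ i),
            ← Finset.mul_prod_erase univ ρ (mem_univ i)] at e2
          rw [← e2]
          ring
        have e3 := Nat.eq_of_mul_eq_mul_left (Nat.mul_pos (hspos i) (hρpos i)) e1
        rw [e3] at h1'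
        have e4 : p ∣ ∏ j ∈ univ.erase i, ρ j := by
          rcases (Nat.Prime.dvd_mul hp).1 h1' with h | h
          · exfalso
            rcases (Nat.Prime.dvd_mul hp).1 h with h | h
            · exact (Nat.Prime.coprime_iff_not_dvd hp).1 hpW h
            · obtain ⟨j, _, hj⟩ := (Prime.dvd_finsetProd_iff hp.prime _).1 h
              exact hps j hj
          · exact h
        obtain ⟨j, hj, hpj⟩ := (Prime.dvd_finsetProd_iff hp.prime _).1 e4
        have hji : j ≠ i := (mem_erase.1 hj).1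
        have hprj : p ∣ r j := by rw [hr j]; exact Dvd.dvd.mul_left hpj _
        apply hP2 j i hji p hp hzp hprj
        have f1 : (p : ℤ) ∣ (Q : ℤ) * T' + h j := by
          have : p ∣ Q * T' + h j := by rw [hβ j]; exact Dvd.dvd.mul_right hprj _
          exact_mod_cast this
        have f2 : (p : ℤ) ∣ (Q : ℤ) * T' + h i := by
          have : p ∣ Q * T' + h i := by rw [hβ i]; exact Dvd.dvd.mul_left h2' _
          exact_mod_cast this
        have f3 := dvd_sub f1 f2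
        have f4 : ((Q : ℤ) * T' + h j) - ((Q : ℤ) * T' + h i) = (h j : ℤ) - h i := by ring
        rwa [f4] at f3)
    exact ⟨n, hn⟩

end Pool.Agent.Y860.TS
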