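import Mathlib

set_option autoImplicit false

/-! Counting the points and pairs that are not in general position. -/

namespace Pool.Agent.Y860.TS

open Finset

/-- the value `h = gcd(r, M) (1 + W κ)` attached to `(r, κ)` -/
def hv (z E : ℕ) (y : ℕ × ℕ) : ℕ := Nat.gcd y.1 (z.factorial ^ E) * (1 + z.factorial * y.2)

/-- the condition on a single point -/
def QQ (z E : ℕ) (y : ℕ × ℕ) : Prop := ∀ p : ℕ, p.Prime → p ≤ z → ¬ p ^ E ∣ y.1

/-- the condition on a pair of points -/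
def PP (z E : ℕ) (y y' : ℕ × ℕ) : Prop :=
  (∀ l : ℕ, l.Prime → z < l → ¬ (l ∣ y.1 ∧ l ∣ y'.1)) ∧ hv z E y ≠ hv z E y' ∧
    ∀ l : ℕ, l.Prime → z < l → l ∣ y.1 → ¬ (l : ℤ) ∣ (hv z E y : ℤ) - hv z E y'

theorem card_cong {u H l : ℕ} (hl : 0 < l) (A : Finset ℕ) (hA : ∀ x ∈ A, u ≤ x ∧ x < u + H)
    (hc : ∀ x ∈ A, ∀ y ∈ A, x ≡ y [MOD l]) : A.card ≤ H / l + 1 := by
  have h1 : A.card ≤ (range (H / l + 1)).card := by
    refine card_le_card_of_injOn (fun x => (x - u) / l) ?_ ?_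
    · intro x hx
      obtain ⟨h1, h2⟩ := hA x hx
      simp only [coe_range, Set.mem_Iio]
      exact Nat.lt_succ_of_le (Nat.div_le_div_right (by omega))
    · intro x hx y hy hxy
      simp only at hxy
      obtain ⟨h1, h2⟩ := hA x hx
      obtain ⟨h3, h4⟩ := hA y hy
      have h5 := hc x hx y hy
      have h6 : (x - u) ≡ (y - u) [MOD l] := by
        have h7 : (x - u) + u ≡ (y - u) + u [MOD l] := by
          rw [Nat.sub_add_cancel h1, Nat.sub_add_cancel h3]; exact h5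
        exact Nat.ModEq.add_right_cancel' u h7
      have h8 := Nat.div_add_mod (x - u) l
      have h9 := Nat.div_add_mod (y - u) l
      rw [hxy, h6] at h8
      have : x - u = y - u := h8.symm.trans h9
      omega
  rwa [card_range] at h1

theorem card_dvd {Y H l : ℕ} (hl : 0 < l) :
    (((Ioc Y (Y + H)).filter (fun x => l ∣ x)).card : ℝ) ≤ H / l + 1 := by
  have h1 : ((Ioc Y (Y + H)).filter (fun x => l ∣ x)).card ≤ H / l + 1 := by
    refine card_cong (u := Y + 1) hl _ ?_ ?_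
    · intro x hx
      rw [mem_filter, mem_Ioc] at hx
      omega
    · intro x hx y hy
      rw [mem_filter] at hx hy
      exact ((Nat.modEq_zero_iff_dvd.2 hx.2).trans (Nat.modEq_zero_iff_dvd.2 hy.2).symm)
  have h2 : (((Ioc Y (Y + H)).filter (fun x => l ∣ x)).card : ℝ) ≤ ((H / l : ℕ) : ℝ) + 1 := by
    exact_mod_cast h1
  have h3 : ((H / l : ℕ) : ℝ) ≤ (H : ℝ) / l := Nat.cast_div_le
  linarith

open Classical in
theorem count_Q {z E Y H K : ℕ} (S : Finset ℕ) (hS : S ⊆ Ioc Y (Y + H)) :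
    (((S ×ˢ range K).filter (fun y => ¬ QQ z E y)).card : ℝ) ≤
      z * ((H : ℝ) / 2 ^ E + 1) * K := by
  set A : ℕ → Finset ℕ := fun p => (Ioc Y (Y + H)).filter (fun x => p ^ E ∣ x) with hA
  have hsub : (S ×ˢ range K).filter (fun y => ¬ QQ z E y) ⊆
      ((Icc 1 z).filter Nat.Prime).biUnion (fun p => A p ×ˢ range K) := by
    intro y hy
    rw [mem_filter, mem_product] at hy
    obtain ⟨⟨h1, h2⟩, h3⟩ := hy
    unfold QQ at h3
    push Not at h3
    obtain ⟨p, hp, hpz, hd⟩ := h3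
    rw [mem_biUnion]
    refine ⟨p, mem_filter.2 ⟨mem_Icc.2 ⟨hp.one_lt.le, hpz⟩, hp⟩, ?_⟩
    rw [mem_product, hA, mem_filter]
    exact ⟨⟨hS h1, hd⟩, h2⟩
  have h1 := (card_le_card hsub).trans card_biUnion_le
  have h2 : ∀ p ∈ (Icc 1 z).filter Nat.Prime, ((A p ×ˢ range K).card : ℝ) ≤
      ((H : ℝ) / 2 ^ E + 1) * K := by
    intro p hp
    rw [mem_filter, mem_Icc] at hp
    rw [card_product, card_range]
    push_cast
    refine mul_le_mul_of_nonneg_right ?_ (Nat.cast_nonneg _)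
    have h3 := card_dvd (Y := Y) (H := H) (l := p ^ E) (pow_pos hp.2.pos _)
    refine h3.trans ?_
    have h4 : (2 : ℝ) ^ E ≤ ((p ^ E : ℕ) : ℝ) := by
      push_cast
      exact pow_le_pow_left₀ (by norm_num) (by exact_mod_cast hp.2.two_le) _
    have h5 : (H : ℝ) / ((p ^ E : ℕ) : ℝ) ≤ H / 2 ^ E :=
      div_le_div_of_nonneg_left (Nat.cast_nonneg _) (by positivity) h4
    linarith
  have h3 : (((S ×ˢ range K).filter (fun y => ¬ QQ z E y)).card : ℝ) ≤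
      ∑ p ∈ (Icc 1 z).filter Nat.Prime, ((A p ×ˢ range K).card : ℝ) := by exact_mod_cast h1
  refine h3.trans ((sum_le_sum h2).trans ?_)
  rw [sum_const, nsmul_eq_mul, ← mul_assoc]
  refine mul_le_mul_of_nonneg_right ?_ (Nat.cast_nonneg _)
  refine mul_le_mul_of_nonneg_right ?_ (by positivity)
  have h4 : ((Icc 1 z).filter Nat.Prime).card ≤ z := by
    refine (card_filter_le _ _).trans ?_
    rw [Nat.card_Icc]; omega
  exact_mod_cast h4

theorem hv_inj {z E : ℕ} {y y' : ℕ × ℕ} (h : hv z E y = hv z E y') : y.2 = y'.2 := by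
  set W : ℕ := z.factorial with hW
  have hWpos : 0 < W := Nat.factorial_pos z
  have hk : ∀ κ : ℕ, Nat.Coprime (1 + W * κ) (W ^ E) := fun κ => by
    apply Nat.Coprime.pow_right
    rw [Nat.coprime_add_mul_left_left]
    exact Nat.coprime_one_left _
  have hs : ∀ y : ℕ × ℕ, Nat.gcd (hv z E y) (W ^ E) = Nat.gcd y.1 (W ^ E) := fun y => by
    unfold hv
    rw [← hW, Nat.Coprime.gcd_mul_right_cancel _ (hk _)]
    exact Nat.gcd_eq_left (Nat.gcd_dvd_right _ _)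
  have h1 : Nat.gcd y.1 (W ^ E) = Nat.gcd y'.1 (W ^ E) := by rw [← hs y, ← hs y', h]
  have h2 : 0 < Nat.gcd y.1 (W ^ E) := Nat.gcd_pos_of_pos_right _ (pow_pos hWpos _)
  unfold hv at h
  rw [← hW, ← h1] at h
  have h3 := Nat.eq_of_mul_eq_mul_left h2 h
  have h4 : W * y.2 = W * y'.2 := by omega
  exact Nat.eq_of_mul_eq_mul_left hWpos h4

theorem hv_le {z E K : ℕ} {y : ℕ × ℕ} (hy : y.2 < K) :
    hv z E y ≤ z.factorial ^ E * (1 + z.factorial * K) := by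
  unfold hv
  refine Nat.mul_le_mul (Nat.gcd_le_right _ (pow_pos (Nat.factorial_pos z) _)) ?_
  have := Nat.mul_le_mul_left z.factorial hy.le
  omega

open Classical in
theorem count_P1 {z Y H K : ℕ} (hz : 1 ≤ z) (S : Finset ℕ) (hS : S ⊆ Ioc Y (Y + H)) :
    (((((S ×ˢ range K) ×ˢ (S ×ˢ range K))).filter
      (fun x => ∃ l : ℕ, l.Prime ∧ z < l ∧ l ∣ x.1.1 ∧ l ∣ x.2.1)).card : ℝ) ≤
      (H : ℝ) * K ^ 2 + 4 * (H : ℝ) ^ 2 * K ^ 2 / z := by
  set A : ℕ → Finset ℕ := fun p => (Ioc Y (Y + H)).filter (fun x => p ∣ x) with hA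
  have hsub : (((S ×ˢ range K) ×ˢ (S ×ˢ range K))).filter
      (fun x => ∃ l : ℕ, l.Prime ∧ z < l ∧ l ∣ x.1.1 ∧ l ∣ x.2.1) ⊆
      ((Ioc Y (Y + H)) ×ˢ (range K ×ˢ range K)).image
        (fun t : ℕ × (ℕ × ℕ) => ((t.1, t.2.1), (t.1, t.2.2))) ∪
      (Ioc z H).biUnion (fun l => (A l ×ˢ range K) ×ˢ (A l ×ˢ range K)) := by
    intro x hx
    simp only [mem_filter, mem_product] at hx
    obtain ⟨⟨⟨h1, h2⟩, h3, h4⟩, l, hl, hzl, hd1, hd2⟩ := hx
    rw [mem_union]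
    by_cases hxx : x.1.1 = x.2.1
    · left
      rw [mem_image]
      refine ⟨(x.1.1, (x.1.2, x.2.2)), ?_, ?_⟩
      · simp only [mem_product]; exact ⟨hS h1, h2, h4⟩
      · refine Prod.ext (Prod.ext rfl rfl) (Prod.ext hxx rfl)
    · right
      rw [mem_biUnion]
      have h5 := mem_Ioc.1 (hS h1)
      have h6 := mem_Ioc.1 (hS h3)
      refine ⟨l, mem_Ioc.2 ⟨hzl, ?_⟩, ?_⟩
      · rcases lt_or_gt_of_ne hxx with h | h
        · have h7 := Nat.le_of_dvd (by omega) (Nat.dvd_sub hd2 hd1)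
          omega
        · have h7 := Nat.le_of_dvd (by omega) (Nat.dvd_sub hd1 hd2)
          omega
      · simp only [mem_product, hA, mem_filter]
        exact ⟨⟨⟨hS h1, hd1⟩, h2⟩, ⟨hS h3, hd2⟩, h4⟩
  have h1 := (card_le_card hsub).trans (card_union_le _ _)
  have h2 : (((Ioc Y (Y + H)) ×ˢ (range K ×ˢ range K)).image
        (fun t : ℕ × (ℕ × ℕ) => ((t.1, t.2.1), (t.1, t.2.2)))).card ≤ H * K ^ 2 := by
    refine card_image_le.trans ?_
    rw [card_product, card_product, card_range, Nat.card_Ioc]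
    simp [sq]
  have h3 : ((((Ioc z H).biUnion (fun l => (A l ×ˢ range K) ×ˢ (A l ×ˢ range K))).card : ℕ) : ℝ) ≤
      4 * (H : ℝ) ^ 2 * K ^ 2 / z := by
    have e1 : ((Ioc z H).biUnion (fun l => (A l ×ˢ range K) ×ˢ (A l ×ˢ range K))).card ≤
      ∑ l ∈ Ioc z H, ((A l ×ˢ range K) ×ˢ (A l ×ˢ range K)).card := card_biUnion_le
    have e2 : ((((Ioc z H).biUnion (fun l => (A l ×ˢ range K) ×ˢ (A l ×ˢ range K))).card : ℕ) : ℝ) ≤
      ∑ l ∈ Ioc z H, (((A l ×ˢ range K) ×ˢ (A l ×ˢ range K)).card : ℝ) := by exact_mod_cast e1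
    refine e2.trans ?_
    have e3 : ∀ l ∈ Ioc z H, (((A l ×ˢ range K) ×ˢ (A l ×ˢ range K)).card : ℝ) ≤
        4 * (H : ℝ) ^ 2 * K ^ 2 * ((l : ℝ) ^ 2)⁻¹ := by
      intro l hl
      rw [mem_Ioc] at hl
      have hl0 : 0 < l := by omega
      have hlr : (0 : ℝ) < l := by exact_mod_cast hl0
      have f1 := card_dvd (Y := Y) (H := H) (l := l) hl0
      have f2 : (H : ℝ) / l + 1 ≤ 2 * H / l := by
        have : (1 : ℝ) ≤ H / l := by
          rw [one_le_div hlr]; exact_mod_cast hl.2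
        have e : 2 * (H : ℝ) / l = H / l + H / l := by ring
        rw [e]; linarith
      have f3 : ((A l).card : ℝ) ≤ 2 * H / l := f1.trans f2
      rw [card_product, card_product, card_range]
      push_cast
      calc ((A l).card : ℝ) * K * ((A l).card * K) = (A l).card ^ 2 * (K : ℝ) ^ 2 := by ring
        _ ≤ (2 * H / l) ^ 2 * (K : ℝ) ^ 2 := by gcongr
        _ = 4 * (H : ℝ) ^ 2 * K ^ 2 * ((l : ℝ) ^ 2)⁻¹ := by
          field_simp
          ring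
    refine (sum_le_sum e3).trans ?_
    rw [← mul_sum]
    by_cases hzH : z ≤ H
    · have f4 := sum_Ioc_inv_sq_le_sub (α := ℝ) (k := z) (n := H) (by omega) hzH
      have f5 : ∑ i ∈ Ioc z H, ((i : ℝ) ^ 2)⁻¹ ≤ (z : ℝ)⁻¹ := by
        refine f4.trans ?_
        have : (0 : ℝ) ≤ (H : ℝ)⁻¹ := by positivity
        linarith
      calc 4 * (H : ℝ) ^ 2 * K ^ 2 * ∑ i ∈ Ioc z H, ((i : ℝ) ^ 2)⁻¹
          ≤ 4 * (H : ℝ) ^ 2 * K ^ 2 * (z : ℝ)⁻¹ := by gcongr
        _ = _ := by rw [div_eq_mul_inv]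
    · rw [Ioc_eq_empty (by omega), sum_empty, mul_zero]
      positivity
  have h4 : (((((S ×ˢ range K) ×ˢ (S ×ˢ range K))).filter
      (fun x => ∃ l : ℕ, l.Prime ∧ z < l ∧ l ∣ x.1.1 ∧ l ∣ x.2.1)).card : ℝ) ≤
      ((((Ioc Y (Y + H)) ×ˢ (range K ×ˢ range K)).image
        (fun t : ℕ × (ℕ × ℕ) => ((t.1, t.2.1), (t.1, t.2.2)))).card : ℝ) +
      ((((Ioc z H).biUnion (fun l => (A l ×ˢ range K) ×ˢ (A l ×ˢ range K))).card : ℕ) : ℝ) := by
    exact_mod_cast h1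
  have h5 : ((((Ioc Y (Y + H)) ×ˢ (range K ×ˢ range K)).image
        (fun t : ℕ × (ℕ × ℕ) => ((t.1, t.2.1), (t.1, t.2.2)))).card : ℝ) ≤ H * K ^ 2 := by
    exact_mod_cast h2
  linarith

open Classical in
theorem count_P2 {z E K : ℕ} (S : Finset ℕ) :
    (((((S ×ˢ range K) ×ˢ (S ×ˢ range K))).filter
      (fun x => hv z E x.1 = hv z E x.2)).card : ℝ) ≤ (S.card : ℝ) ^ 2 * K := by
  have hsub : (((S ×ˢ range K) ×ˢ (S ×ˢ range K))).filter (fun x => hv z E x.1 = hv z E x.2) ⊆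
      ((S ×ˢ S) ×ˢ range K).image (fun t : (ℕ × ℕ) × ℕ => ((t.1.1, t.2), (t.1.2, t.2))) := by
    intro x hx
    simp only [mem_filter, mem_product] at hx
    obtain ⟨⟨⟨h1, h2⟩, h3, h4⟩, h5⟩ := hx
    rw [mem_image]
    refine ⟨((x.1.1, x.2.1), x.1.2), ?_, ?_⟩
    · simp only [mem_product]; exact ⟨⟨h1, h3⟩, h2⟩
    · have h6 : x.1.2 = x.2.2 := hv_inj h5
      exact Prod.ext rfl (Prod.ext rfl h6)
  have h1 := (card_le_card hsub).trans card_image_le
  rw [card_product, card_product, card_range] at h1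
  have h2 : (((((S ×ˢ range K) ×ˢ (S ×ˢ range K))).filter
      (fun x => hv z E x.1 = hv z E x.2)).card : ℝ) ≤ (S.card : ℝ) * S.card * K := by
    exact_mod_cast h1
  rwa [← sq] at h2

open Classical in
theorem count_P3l {z E Y H K l : ℕ} (hl : l.Prime) (hzl : z < l) (S : Finset ℕ)
    (hS : S ⊆ Ioc Y (Y + H)) :
    (((((S ×ˢ range K) ×ˢ (S ×ˢ range K))).filter
      (fun x => l ∣ x.1.1 ∧ (l : ℤ) ∣ (hv z E x.1 : ℤ) - hv z E x.2)).card : ℝ) ≤
      (K * S.card : ℝ) * (((H : ℝ) / l + 1) * ((K : ℝ) / l + 1)) := by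
  have hl0 : 0 < l := hl.pos
  set F : Finset ((ℕ × ℕ) × (ℕ × ℕ)) := (((S ×ˢ range K) ×ˢ (S ×ˢ range K))).filter
      (fun x => l ∣ x.1.1 ∧ (l : ℤ) ∣ (hv z E x.1 : ℤ) - hv z E x.2) with hF
  set A : Finset ℕ := (Ioc Y (Y + H)).filter (fun x => l ∣ x) with hA
  have hW : Nat.Coprime l z.factorial := by
    rw [Nat.Prime.coprime_iff_not_dvd hl]
    exact fun h => absurd ((Nat.Prime.dvd_factorial hl).1 h) (not_le.2 hzl)
  have h1 := Finset.card_le_mul_card_image (f := fun x : (ℕ × ℕ) × (ℕ × ℕ) => (x.1, x.2.1)) F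
    (K / l + 1) (by
      intro a _
      have e1 : (F.filter (fun x => (x.1, x.2.1) = a)).card =
          ((F.filter (fun x => (x.1, x.2.1) = a)).image (fun x => x.2.2)).card := by
        rw [card_image_of_injOn]
        intro x hx y hy hxy
        rw [mem_coe, mem_filter] at hx hy
        have e2 := hx.2.trans hy.2.symm
        simp only [Prod.mk.injEq] at e2
        exact Prod.ext e2.1 (Prod.ext e2.2 hxy)
      rw [e1]
      refine card_cong (u := 0) hl0 _ ?_ ?_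
      · intro κ hκ
        rw [mem_image] at hκ
        obtain ⟨x, hx, rfl⟩ := hκ
        rw [mem_filter, hF, mem_filter] at hx
        simp only [mem_product, mem_range] at hx
        omega
      · intro κ hκ κ' hκ'
        rw [mem_image] at hκ hκ'
        obtain ⟨x, hx, rfl⟩ := hκ
        obtain ⟨y, hy, rfl⟩ := hκ'
        rw [mem_filter, hF, mem_filter] at hx hy
        obtain ⟨⟨_, _, hx1⟩, hx2⟩ := hx
        obtain ⟨⟨_, _, hy1⟩, hy2⟩ := hy
        have e2 := hx2.trans hy2.symm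
        simp only [Prod.mk.injEq] at e2
        rw [e2.1] at hx1
        have e3 := dvd_sub hy1 hx1
        have e4 : ((hv z E y.1 : ℤ) - hv z E y.2) - ((hv z E y.1 : ℤ) - hv z E x.2) =
            ((Nat.gcd y.2.1 (z.factorial ^ E) * z.factorial : ℕ) : ℤ) * ((x.2.2 : ℤ) - y.2.2) := by
          unfold hv
          rw [e2.2]
          push_cast
          ring
        rw [e4] at e3
        have e5 : IsCoprime (l : ℤ) ((Nat.gcd y.2.1 (z.factorial ^ E) * z.factorial : ℕ) : ℤ) := by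
          rw [Nat.isCoprime_iff_coprime]
          refine Nat.Coprime.mul_right ?_ hW
          exact Nat.Coprime.coprime_dvd_right (Nat.gcd_dvd_right _ _) (Nat.Coprime.pow_right E hW)
        have e6 := e5.dvd_of_dvd_mul_left e3
        rw [Nat.ModEq.comm]
        exact (Nat.modEq_iff_dvd).2 e6)
  have h2 : (F.image (fun x : (ℕ × ℕ) × (ℕ × ℕ) => (x.1, x.2.1))).card ≤ (A.card * K) * S.card := by
    have : F.image (fun x : (ℕ × ℕ) × (ℕ × ℕ) => (x.1, x.2.1)) ⊆ (A ×ˢ range K) ×ˢ S := by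
      intro a ha
      rw [mem_image] at ha
      obtain ⟨x, hx, rfl⟩ := ha
      rw [hF, mem_filter] at hx
      simp only [mem_product, hA, mem_filter] at hx ⊢
      exact ⟨⟨⟨hS hx.1.1.1, hx.2.1⟩, hx.1.1.2⟩, hx.1.2.1⟩
    refine (card_le_card this).trans ?_
    rw [card_product, card_product, card_range]
  have h3 := h1.trans (Nat.mul_le_mul_left _ h2)
  have h4 : (F.card : ℝ) ≤ (((K / l : ℕ) : ℝ) + 1) * ((A.card * K) * S.card) := by exact_mod_cast h3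
  refine h4.trans ?_
  have h5 : ((K / l : ℕ) : ℝ) ≤ (K : ℝ) / l := Nat.cast_div_le
  have h6 : (A.card : ℝ) ≤ H / l + 1 := card_dvd hl0
  calc (((K / l : ℕ) : ℝ) + 1) * ((A.card * K) * S.card)
      ≤ ((K : ℝ) / l + 1) * (((H / l + 1) * K) * S.card) := by gcongr
    _ = _ := by ring

open Classical in
theorem count_P3 {z E Y H K C : ℕ} (hz : 1 ≤ z) (S : Finset ℕ) (hS : S ⊆ Ioc Y (Y + H))
    (hC : C = z.factorial ^ E * (1 + z.factorial * K)) :
    (((((S ×ˢ range K) ×ˢ (S ×ˢ range K))).filter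
      (fun x => hv z E x.1 ≠ hv z E x.2 ∧ ∃ l : ℕ, l.Prime ∧ z < l ∧ l ∣ x.1.1 ∧
        (l : ℤ) ∣ (hv z E x.1 : ℤ) - hv z E x.2)).card : ℝ) ≤
      (K * S.card : ℝ) * ((H : ℝ) * K / z + (H + K) * (1 + Real.log C) + C) := by
  set B : ℕ → Finset ((ℕ × ℕ) × (ℕ × ℕ)) := fun l => (((S ×ˢ range K) ×ˢ (S ×ˢ range K))).filter
      (fun x => l ∣ x.1.1 ∧ (l : ℤ) ∣ (hv z E x.1 : ℤ) - hv z E x.2) with hB
  have hsub : (((S ×ˢ range K) ×ˢ (S ×ˢ range K))).filter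
      (fun x => hv z E x.1 ≠ hv z E x.2 ∧ ∃ l : ℕ, l.Prime ∧ z < l ∧ l ∣ x.1.1 ∧
        (l : ℤ) ∣ (hv z E x.1 : ℤ) - hv z E x.2) ⊆ ((Ioc z C).filter Nat.Prime).biUnion B := by
    intro x hx
    rw [mem_filter] at hx
    obtain ⟨hx1, hne, l, hl, hzl, hd1, hd2⟩ := hx
    rw [mem_biUnion]
    refine ⟨l, mem_filter.2 ⟨mem_Ioc.2 ⟨hzl, ?_⟩, hl⟩, ?_⟩
    · have hx1' := hx1
      simp only [mem_product, mem_range] at hx1'
      have e1 : hv z E x.1 ≤ C := by rw [hC]; exact hv_le hx1'.1.2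
      have e2 : hv z E x.2 ≤ C := by rw [hC]; exact hv_le hx1'.2.2
      have e3 : (hv z E x.1 : ℤ) - hv z E x.2 ≠ 0 := by
        intro h
        apply hne
        have : (hv z E x.1 : ℤ) = hv z E x.2 := by linarith
        exact_mod_cast this
      have e4 := Int.natAbs_dvd_natAbs.2 hd2
      rw [Int.natAbs_natCast] at e4
      have e5 := Nat.le_of_dvd (Int.natAbs_pos.2 e3) e4
      refine e5.trans ?_
      omega
    · rw [hB, mem_filter]; exact ⟨hx1, hd1, hd2⟩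
  have h1 := (card_le_card hsub).trans card_biUnion_le
  have h2 : (((((S ×ˢ range K) ×ˢ (S ×ˢ range K))).filter
      (fun x => hv z E x.1 ≠ hv z E x.2 ∧ ∃ l : ℕ, l.Prime ∧ z < l ∧ l ∣ x.1.1 ∧
        (l : ℤ) ∣ (hv z E x.1 : ℤ) - hv z E x.2)).card : ℝ) ≤
      ∑ l ∈ (Ioc z C).filter Nat.Prime, ((B l).card : ℝ) := by exact_mod_cast h1
  refine h2.trans ?_
  have h3 : ∑ l ∈ (Ioc z C).filter Nat.Prime, ((B l).card : ℝ) ≤
      ∑ l ∈ (Ioc z C).filter Nat.Prime,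
        (K * S.card : ℝ) * (((H : ℝ) / l + 1) * ((K : ℝ) / l + 1)) := by
    refine sum_le_sum fun l hl => ?_
    rw [mem_filter, mem_Ioc] at hl
    exact count_P3l hl.2 hl.1.1 S hS
  refine h3.trans ?_
  have h4 : ∑ l ∈ (Ioc z C).filter Nat.Prime,
        (K * S.card : ℝ) * (((H : ℝ) / l + 1) * ((K : ℝ) / l + 1)) ≤
      ∑ l ∈ Ioc z C, (K * S.card : ℝ) * (((H : ℝ) / l + 1) * ((K : ℝ) / l + 1)) := by
    refine sum_le_sum_of_subset_of_nonneg (filter_subset _ _) ?_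
    intro l _ _
    positivity
  refine h4.trans ?_
  rw [← mul_sum]
  refine mul_le_mul_of_nonneg_left ?_ (by positivity)
  have h5 : ∀ l ∈ Ioc z C, ((H : ℝ) / l + 1) * ((K : ℝ) / l + 1) =
      (H : ℝ) * K * ((l : ℝ) ^ 2)⁻¹ + (H + K) * (l : ℝ)⁻¹ + 1 := by
    intro l hl
    rw [mem_Ioc] at hl
    have hlr : (0 : ℝ) < l := by exact_mod_cast (by omega : 0 < l)
    field_simp
    ring
  rw [sum_congr rfl h5, sum_add_distrib, sum_add_distrib, ← mul_sum, ← mul_sum, sum_const,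
    nsmul_eq_mul, mul_one, Nat.card_Ioc]
  have h6 : ∑ l ∈ Ioc z C, ((l : ℝ) ^ 2)⁻¹ ≤ (z : ℝ)⁻¹ := by
    by_cases hzC : z ≤ C
    · have f4 := sum_Ioc_inv_sq_le_sub (α := ℝ) (k := z) (n := C) (by omega) hzC
      refine f4.trans ?_
      have : (0 : ℝ) ≤ (C : ℝ)⁻¹ := by positivity
      linarith
    · rw [Ioc_eq_empty (by omega), sum_empty]
      positivity
  have h7 : ∑ l ∈ Ioc z C, (l : ℝ)⁻¹ ≤ 1 + Real.log C := by
    have f1 := harmonic_le_one_add_log C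
    have f2 : ((harmonic C : ℚ) : ℝ) = ∑ i ∈ Icc 1 C, (i : ℝ)⁻¹ := by
      rw [harmonic_eq_sum_Icc]
      push_cast
      rfl
    rw [f2] at f1
    refine le_trans ?_ f1
    refine sum_le_sum_of_subset_of_nonneg ?_ ?_
    · intro i hi
      rw [mem_Ioc] at hi
      rw [mem_Icc]
      omega
    · intro i _ _
      positivity
  have h8 : ((C - z : ℕ) : ℝ) ≤ C := by exact_mod_cast Nat.sub_le _ _
  have h9 : (H : ℝ) * K * ∑ l ∈ Ioc z C, ((l : ℝ) ^ 2)⁻¹ ≤ (H : ℝ) * K / z := by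
    rw [div_eq_mul_inv]
    exact mul_le_mul_of_nonneg_left h6 (by positivity)
  have h10 : ((H : ℝ) + K) * ∑ l ∈ Ioc z C, (l : ℝ)⁻¹ ≤ (H + K) * (1 + Real.log C) :=
    mul_le_mul_of_nonneg_left h7 (by positivity)
  linarith

open Classical in
theorem count_P {z E Y H K C : ℕ} (hz : 1 ≤ z) (S : Finset ℕ) (hS : S ⊆ Ioc Y (Y + H))
    (hC : C = z.factorial ^ E * (1 + z.factorial * K)) :
    (((((S ×ˢ range K) ×ˢ (S ×ˢ range K))).filter (fun x => ¬ PP z E x.1 x.2)).card : ℝ) ≤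
      ((H : ℝ) * K ^ 2 + 4 * (H : ℝ) ^ 2 * K ^ 2 / z) + (S.card : ℝ) ^ 2 * K +
      (K * S.card : ℝ) * ((H : ℝ) * K / z + (H + K) * (1 + Real.log C) + C) := by
  have hsub : (((S ×ˢ range K) ×ˢ (S ×ˢ range K))).filter (fun x => ¬ PP z E x.1 x.2) ⊆
      ((((S ×ˢ range K) ×ˢ (S ×ˢ range K))).filter
        (fun x => ∃ l : ℕ, l.Prime ∧ z < l ∧ l ∣ x.1.1 ∧ l ∣ x.2.1) ∪
      (((S ×ˢ range K) ×ˢ (S ×ˢ range K))).filter (fun x => hv z E x.1 = hv z E x.2)) ∪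
      (((S ×ˢ range K) ×ˢ (S ×ˢ range K))).filter
      (fun x => hv z E x.1 ≠ hv z E x.2 ∧ ∃ l : ℕ, l.Prime ∧ z < l ∧ l ∣ x.1.1 ∧
        (l : ℤ) ∣ (hv z E x.1 : ℤ) - hv z E x.2) := by
    intro x hx
    rw [mem_filter] at hx
    rw [mem_union, mem_union, mem_filter, mem_filter, mem_filter]
    by_cases h1 : ∃ l : ℕ, l.Prime ∧ z < l ∧ l ∣ x.1.1 ∧ l ∣ x.2.1
    · exact Or.inl (Or.inl ⟨hx.1, h1⟩)
    · by_cases h2 : hv z E x.1 = hv z E x.2
      · exact Or.inl (Or.inr ⟨hx.1, h2⟩)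
      · refine Or.inr ⟨hx.1, h2, ?_⟩
        by_contra h3
        apply hx.2
        refine ⟨fun l hl hzl hd => h1 ⟨l, hl, hzl, hd.1, hd.2⟩, h2, fun l hl hzl hd1 hd2 =>
          h3 ⟨l, hl, hzl, hd1, hd2⟩⟩
  have h1 := (card_le_card hsub).trans ((card_union_le _ _).trans
    (Nat.add_le_add_right (card_union_le _ _) _))
  have h2 := count_P1 (z := z) (K := K) hz S hS
  have h3 := count_P2 (z := z) (E := E) (K := K) S
  have h4 := count_P3 (z := z) (E := E) (K := K) hz S hS hC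
  have h5 : (((((S ×ˢ range K) ×ˢ (S ×ˢ range K))).filter (fun x => ¬ PP z E x.1 x.2)).card : ℝ) ≤
      (((((S ×ˢ range K) ×ˢ (S ×ˢ range K))).filter
        (fun x => ∃ l : ℕ, l.Prime ∧ z < l ∧ l ∣ x.1.1 ∧ l ∣ x.2.1)).card : ℝ) +
      (((((S ×ˢ range K) ×ˢ (S ×ˢ range K))).filter (fun x => hv z E x.1 = hv z E x.2)).card : ℝ) +
      (((((S ×ˢ range K) ×ˢ (S ×ˢ range K))).filter
      (fun x => hv z E x.1 ≠ hv z E x.2 ∧ ∃ l : ℕ, l.Prime ∧ z < l ∧ l ∣ x.1.1 ∧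
        (l : ℤ) ∣ (hv z E x.1 : ℤ) - hv z E x.2)).card : ℝ) := by exact_mod_cast h1
  linarith

end Pool.Agent.Y860.TS
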