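import Mathlib
import Pool.Agent.W76.Seq
import Pool.Agent.W76.Count

set_option autoImplicit false

/-! Four classes of integers `h` such that cross differences are `c t` times the greatest common
divisor. -/

namespace Pool.Agent.Y860.TS

open Finset Pool.Agent.W76

theorem exists_h (n : ℕ) (hn : 1 ≤ n) (K : ℕ) : ∃ (B : ℕ) (h : Fin 4 → Fin K → ℕ),
    (∀ g i, 1 ≤ h g i ∧ h g i ≤ B) ∧
    Function.Injective (fun x : Fin 4 × Fin K => h x.1 x.2) ∧
    ∀ x y : Fin 4 × Fin K, x.1 ≠ y.1 → ∃ t : ℕ, 1 ≤ t ∧ t ≤ B ∧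
      (∀ l : ℕ, l.Prime → l ∣ t → l ≤ 3 ∧ l ∣ n) ∧
      ((h x.1 x.2 : ℤ) - h y.1 y.2).natAbs = n * t * Nat.gcd (h x.1 x.2) (h y.1 y.2) := by
  classical
  obtain ⟨Q, t₀, hQt, hQ6, ht₀⟩ := exists_split 6 n hn
  have hQpos : 0 < Q := Nat.pos_of_ne_zero (by rintro rfl; omega)
  have hQ5 : ∀ l : ℕ, l.Prime → l ∣ Q → 5 ≤ l := by
    intro l hl hlQ
    by_contra hlt
    have hl4 : l < 5 := not_le.1 hlt
    have h6 : l ∣ 6 := by
      interval_cases l <;> revert hl <;> norm_num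
    have := Nat.dvd_gcd hlQ h6
    rw [hQ6] at this
    exact hl.one_lt.ne' (Nat.dvd_one.1 this)
  obtain ⟨F, hF0, hF1, hF2, hF3⟩ := exists_five Q hQpos hQ5 K
  -- embed four classes into five
  obtain ⟨f, hf⟩ : ∃ f : Fin 4 × Fin K → ℕ, ∀ x, f x = F (Fin.castSucc x.1) x.2 := ⟨_, fun _ => rfl⟩
  have hfinj : ∀ x y, f x = f y → x = y := by
    intro x y hxy
    rw [hf, hf] at hxy
    have h1 := hF2 (Fin.castSucc x.1, x.2) (Fin.castSucc y.1, y.2) hxy
    simp only [Prod.mk.injEq] at h1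
    exact Prod.ext (Fin.castSucc_injective _ h1.1) h1.2
  have hfd : ∀ x y : Fin 4 × Fin K, x.1 ≠ y.1 → ((f x : ℤ) - f y) ∣ f x := by
    intro x y hxy
    rw [hf, hf]
    exact hF3 (Fin.castSucc x.1, x.2) (Fin.castSucc y.1, y.2)
      (fun h => hxy (Fin.castSucc_injective _ h))
  have hfQ : ∀ x : Fin 4 × Fin K, (Q : ℤ) ∣ (f x : ℤ) - (x.1 : ℕ) := by
    intro x
    rw [hf]
    have := hF1 (Fin.castSucc x.1) x.2
    simpa using this
  obtain ⟨d, hd⟩ : ∃ d : Fin 4 × Fin K → Fin 4 × Fin K → ℕ, ∀ x y,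
    d x y = ((f x : ℤ) - f y).natAbs := ⟨_, fun _ _ => rfl⟩
  have hdpos : ∀ x y : Fin 4 × Fin K, x.1 ≠ y.1 → 0 < d x y := by
    intro x y hxy
    rw [hd]
    apply Int.natAbs_pos.2
    intro h
    apply hxy
    have : f x = f y := by
      have : (f x : ℤ) = f y := by linarith
      exact_mod_cast this
    rw [hfinj x y this]
  have hdf : ∀ x y : Fin 4 × Fin K, x.1 ≠ y.1 → d x y ∣ f x ∧ d x y ∣ f y := by
    intro x y hxy
    have h1 : d x y ∣ f x := by
      rw [hd, ← Int.natCast_dvd_natCast, Int.natAbs_dvd]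
      exact hfd x y hxy
    refine ⟨h1, ?_⟩
    have h2 : (d x y : ℤ) ∣ f x := Int.natCast_dvd_natCast.2 h1
    have h3 : (d x y : ℤ) ∣ (f x : ℤ) - f y := by rw [hd, Int.natAbs_dvd]
    have h4 := dvd_sub h2 h3
    have h5 : (f x : ℤ) - ((f x : ℤ) - f y) = f y := by ring
    rw [h5] at h4
    exact_mod_cast h4
  have hsplit : ∀ x y : Fin 4 × Fin K, ∃ u v : ℕ, Nat.Coprime u n ∧ 0 < u ∧ (x.1 ≠ y.1 →
      d x y = u * v ∧ 0 < v ∧ ∀ l : ℕ, l.Prime → l ∣ v → l ∣ n) := by
    intro x y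
    by_cases hxy : x.1 ≠ y.1
    · obtain ⟨u, v, h1, h2, h3⟩ := exists_split n (d x y) (hdpos x y hxy)
      have h4 := hdpos x y hxy
      rw [h1] at h4
      exact ⟨u, v, h2, Nat.pos_of_mul_pos_right h4, fun _ => ⟨h1, Nat.pos_of_mul_pos_left h4, h3⟩⟩
    · exact ⟨1, 1, Nat.coprime_one_left n, one_pos, fun h => absurd h hxy⟩
  choose u v hu hupos huv using hsplit
  obtain ⟨A, hA⟩ : ∃ A : ℕ, A = ∏ z : (Fin 4 × Fin K) × (Fin 4 × Fin K), u z.1 z.2 := ⟨_, rfl⟩
  have hApos : 0 < A := by rw [hA]; exact Finset.prod_pos fun z _ => hupos _ _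
  have hAn : Nat.Coprime A n := by
    rw [hA]; exact Nat.Coprime.prod_left fun z _ => hu _ _
  have huA : ∀ x y, u x y ∣ A := fun x y => by
    rw [hA]
    exact Finset.dvd_prod_of_mem (fun z : (Fin 4 × Fin K) × (Fin 4 × Fin K) => u z.1 z.2)
      (mem_univ (x, y))
  obtain ⟨h, hh⟩ : ∃ h : Fin 4 × Fin K → ℕ, ∀ x, h x = A + n * f x := ⟨_, fun _ => rfl⟩
  have hhpos : ∀ x, 1 ≤ h x := fun x => by rw [hh]; omega
  have hhn : ∀ x, Nat.Coprime (h x) n := fun x => by
    rw [hh]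
    exact (Nat.coprime_add_mul_left_left A n (f x)).2 hAn
  have hhinj : Function.Injective h := by
    intro x y hxy
    rw [hh, hh] at hxy
    have : n * f x = n * f y := by omega
    exact hfinj x y (Nat.eq_of_mul_eq_mul_left hn this)
  refine ⟨(∑ x, h x) + ∑ z : (Fin 4 × Fin K) × (Fin 4 × Fin K), v z.1 z.2, fun g i => h (g, i),
    ?_, ?_, ?_⟩
  · intro g i
    refine ⟨hhpos _, ?_⟩
    show h (g, i) ≤ _
    have h1 : h (g, i) ≤ ∑ x, h x := Finset.single_le_sum (fun x _ => Nat.zero_le _) (mem_univ _)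
    omega
  · intro x y hxy
    exact hhinj hxy
  · intro x y hxy
    obtain ⟨h1, h2, h3⟩ := huv x y hxy
    refine ⟨v x y, h2, ?_, ?_, ?_⟩
    · have h4 : v x y ≤ ∑ z : (Fin 4 × Fin K) × (Fin 4 × Fin K), v z.1 z.2 :=
        Finset.single_le_sum (f := fun z : (Fin 4 × Fin K) × (Fin 4 × Fin K) => v z.1 z.2)
          (fun z _ => Nat.zero_le _) (mem_univ (x, y))
      omega
    · intro l hl hlv
      have hln := h3 l hl hlv
      refine ⟨?_, hln⟩
      by_contra hl3
      have hl3 : 3 < l := not_le.1 hl3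
      have hlQ : l ∣ Q := by
        rw [hQt] at hln
        rcases (Nat.Prime.dvd_mul hl).1 hln with h5 | h5
        · exact h5
        · exfalso
          have h6 := Nat.le_of_dvd (by norm_num) (ht₀ l hl h5)
          have h7 : l ∣ 6 := ht₀ l hl h5
          interval_cases l <;> revert h7 hl <;> norm_num
      have hld : (l : ℤ) ∣ (f x : ℤ) - f y := by
        have h5 : l ∣ d x y := by rw [h1]; exact Dvd.dvd.mul_left hlv _
        rw [hd] at h5
        exact Int.natCast_dvd.2 h5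
      have hlQz : (l : ℤ) ∣ Q := Int.natCast_dvd_natCast.2 hlQ
      have h8 : (l : ℤ) ∣ ((x.1 : ℕ) : ℤ) - (y.1 : ℕ) := by
        have h9 := dvd_sub (hlQz.trans (hfQ y)) (hlQz.trans (hfQ x))
        have h10 := dvd_add h9 hld
        have h11 : ((f y : ℤ) - (y.1 : ℕ)) - ((f x : ℤ) - (x.1 : ℕ)) + ((f x : ℤ) - f y) =
            ((x.1 : ℕ) : ℤ) - (y.1 : ℕ) := by ring
        rwa [h11] at h10
      have hx4 := x.1.2
      have hy4 := y.1.2
      have h12 : |((x.1 : ℕ) : ℤ) - (y.1 : ℕ)| < l := by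
        rw [abs_lt]
        constructor <;> omega
      have h13 := Int.eq_zero_of_abs_lt_dvd h8 h12
      apply hxy
      apply Fin.ext
      omega
    · show ((h x : ℤ) - h y).natAbs = n * v x y * Nat.gcd (h x) (h y)
      have e1 : ((h x : ℤ) - h y).natAbs = n * d x y := by
        rw [hh, hh, hd]
        have : ((A + n * f x : ℕ) : ℤ) - ((A + n * f y : ℕ) : ℤ) = (n : ℤ) * ((f x : ℤ) - f y) := by
          push_cast; ring
        rw [this, Int.natAbs_mul, Int.natAbs_natCast]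
      have e2 : Nat.gcd (h x) (h y) = u x y := by
        apply Nat.dvd_antisymm
        · have e3 : Nat.gcd (h x) (h y) ∣ n * (u x y * v x y) := by
            rw [← h1, ← e1]
            rw [← Int.natCast_dvd]
            exact dvd_sub (Int.natCast_dvd_natCast.2 (Nat.gcd_dvd_left _ _))
              (Int.natCast_dvd_natCast.2 (Nat.gcd_dvd_right _ _))
          have e4 : Nat.Coprime (Nat.gcd (h x) (h y)) n :=
            Nat.Coprime.coprime_dvd_left (Nat.gcd_dvd_left _ _) (hhn x)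
          have e5 : Nat.Coprime (Nat.gcd (h x) (h y)) (v x y) := by
            by_contra hc
            obtain ⟨l, hl, hl1, hl2⟩ := Nat.Prime.not_coprime_iff_dvd.1 hc
            have := Nat.dvd_gcd hl1 (h3 l hl hl2)
            rw [e4] at this
            exact hl.one_lt.ne' (Nat.dvd_one.1 this)
          exact e5.dvd_of_dvd_mul_right (e4.dvd_of_dvd_mul_left e3)
        · have e6 : u x y ∣ d x y := by rw [h1]; exact dvd_mul_right _ _
          apply Nat.dvd_gcd
          · rw [hh]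
            exact dvd_add (huA x y) (Dvd.dvd.mul_left (e6.trans (hdf x y hxy).1) _)
          · rw [hh]
            exact dvd_add (huA x y) (Dvd.dvd.mul_left (e6.trans (hdf x y hxy).2) _)
      rw [e1, e2, h1]
      ring

end Pool.Agent.Y860.TS
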