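import Mathlib
import Pool.Agent.TH899.UG.PairsP

set_option autoImplicit false

/-! From two simultaneously prime forms to the equation `a p - b q = c`. -/

namespace Pool.Agent.Y860.TS

open Finset Pool.Agent.H732R3.BigQ Pool.Agent.TH899.UG

/-- infinitely many solutions force the local conditions -/
theorem conds {a b : ℕ} {c : ℤ} (hb : 1 ≤ b) (hab : Nat.Coprime a b)
    (hinf : {q : ℕ | q.Prime ∧ ∃ p : ℕ, p.Prime ∧ (a : ℤ) * p - b * q = c}.Infinite) :
    IsCoprime (a : ℤ) c ∧ IsCoprime (b : ℤ) c ∧ ¬ (Odd a ∧ Odd b ∧ Odd c) := by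
  have hbz : (0 : ℤ) < b := by exact_mod_cast hb
  have hp0 : ∀ t : ℕ, {q : ℕ | (a : ℤ) * t - b * q = c}.Subsingleton := by
    intro t q hq q' hq'
    have hq : (a : ℤ) * t - b * q = c := hq
    have hq' : (a : ℤ) * t - b * q' = c := hq'
    have h1 : (b : ℤ) * q = b * q' := by linarith
    have h2 := mul_left_cancel₀ hbz.ne' h1
    exact_mod_cast h2
  have key : ∀ x : ℕ, ¬ IsCoprime (x : ℤ) c → ∃ l : ℕ, l.Prime ∧ l ∣ x ∧ (l : ℤ) ∣ c := by
    intro x hx
    rw [Int.isCoprime_iff_gcd_eq_one] at hx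
    have h1 : ¬ Nat.Coprime x c.natAbs := by
      intro h
      apply hx
      rw [Int.gcd, Int.natAbs_natCast]
      exact h
    obtain ⟨l, hl, h2, h3⟩ := Nat.Prime.not_coprime_iff_dvd.1 h1
    exact ⟨l, hl, h2, Int.natCast_dvd.2 h3⟩
  refine ⟨?_, ?_, ?_⟩
  · by_contra hcon
    obtain ⟨l, hl, h1, h2⟩ := key a hcon
    apply hinf
    apply (Set.finite_singleton l).subset
    rintro q ⟨hq, p, hp, heq⟩
    have h3 : (l : ℤ) ∣ b * q := by
      have : (b : ℤ) * q = a * p - c := by linarith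
      rw [this]
      exact dvd_sub (Dvd.dvd.mul_right (by exact_mod_cast h1) _) h2
    have h4 : l ∣ b * q := by exact_mod_cast h3
    rcases (Nat.Prime.dvd_mul hl).1 h4 with h5 | h5
    · exfalso
      have := Nat.dvd_gcd h1 h5
      rw [hab] at this
      exact hl.one_lt.ne' (Nat.dvd_one.1 this)
    · rw [Set.mem_singleton_iff]
      exact ((Nat.prime_dvd_prime_iff_eq hl hq).1 h5).symm
  · by_contra hcon
    obtain ⟨l, hl, h1, h2⟩ := key b hcon
    apply hinf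
    apply (hp0 l).finite.subset
    rintro q ⟨hq, p, hp, heq⟩
    have h3 : (l : ℤ) ∣ a * p := by
      have : (a : ℤ) * p = b * q + c := by linarith
      rw [this]
      exact dvd_add (Dvd.dvd.mul_right (by exact_mod_cast h1) _) h2
    have h4 : l ∣ a * p := by exact_mod_cast h3
    rcases (Nat.Prime.dvd_mul hl).1 h4 with h5 | h5
    · exfalso
      have := Nat.dvd_gcd h5 h1
      rw [hab] at this
      exact hl.one_lt.ne' (Nat.dvd_one.1 this)
    · have h6 := (Nat.prime_dvd_prime_iff_eq hl hp).1 h5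
      rw [h6]
      exact heq
  · rintro ⟨ha2, hb2, hc2⟩
    apply hinf
    apply ((Set.finite_singleton 2).union (hp0 2).finite).subset
    rintro q ⟨hq, p, hp, heq⟩
    rcases hq.eq_two_or_odd' with h | h
    · left; exact h
    · right
      rcases hp.eq_two_or_odd' with h' | h'
      · rw [h'] at heq
        exact heq
      · exfalso
        have e1 : Odd ((a : ℤ) * p) := ((Int.odd_coe_nat a).2 ha2).mul ((Int.odd_coe_nat p).2 h')
        have e2 : Odd ((b : ℤ) * q) := ((Int.odd_coe_nat b).2 hb2).mul ((Int.odd_coe_nat q).2 h)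
        have e3 := e1.sub_odd e2
        rw [heq] at e3
        exact (Int.not_even_iff_odd.2 hc2) e3

/-- Two forms with `r (A n + β) = R n + T + h` and `r' (A' n + β') = R n + T + h'` that are
simultaneously prime many times solve the equation `(r / G) p - (r' / G) q = (h - h') / G`, where
`G = gcd(r, r')`. -/
theorem slope_core {r r' h h' : ℕ} {A β A' β' R T : ℤ} (hr : 1 ≤ r) (hr' : 1 ≤ r')
    (hA : 0 < A) (e1 : (r : ℤ) * A = R) (e2 : (r : ℤ) * β = T + h) (e3 : (r' : ℤ) * A' = R)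
    (e4 : (r' : ℤ) * β' = T + h') (hne : h ≠ h')
    (hp : PairBig (A, β) (A', β')) : ∃ (a b : ℕ) (c : ℤ), 1 ≤ a ∧ 1 ≤ b ∧ c ≠ 0 ∧
      IsCoprime (a : ℤ) b ∧ IsCoprime (a : ℤ) c ∧ IsCoprime (b : ℤ) c ∧
      ¬ (Odd a ∧ Odd b ∧ Odd c) ∧ r = Nat.gcd r r' * a ∧ r' = Nat.gcd r r' * b ∧
      (Nat.gcd r r' : ℤ) * c = (h : ℤ) - h' ∧
      Big {q : ℕ | q.Prime ∧ ∃ p : ℕ, p.Prime ∧ (a : ℤ) * p - b * q = c} := by
  obtain ⟨G, hG⟩ : ∃ G : ℕ, G = Nat.gcd r r' := ⟨_, rfl⟩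
  have hG0 : 0 < G := by rw [hG]; exact Nat.gcd_pos_of_pos_left _ hr
  have hGz : (0 : ℤ) < G := by exact_mod_cast hG0
  obtain ⟨a, ha⟩ : ∃ a : ℕ, r = G * a := by rw [hG]; exact Nat.gcd_dvd_left _ _
  obtain ⟨b, hb⟩ : ∃ b : ℕ, r' = G * b := by rw [hG]; exact Nat.gcd_dvd_right _ _
  have hab : Nat.Coprime a b := by
    have h1 : G * Nat.gcd a b = G * 1 := by
      rw [← Nat.gcd_mul_left, ← ha, ← hb, mul_one, hG]
    exact Nat.eq_of_mul_eq_mul_left hG0 h1
  have ha0 : 1 ≤ a := by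
    rcases Nat.eq_zero_or_pos a with h0 | h0
    · rw [h0, mul_zero] at ha; omega
    · exact h0
  have hb0 : 1 ≤ b := by
    rcases Nat.eq_zero_or_pos b with h0 | h0
    · rw [h0, mul_zero] at hb; omega
    · exact h0
  -- the identity
  have hid : ∀ n : ℤ, (r : ℤ) * (A * n + β) - r' * (A' * n + β') = (h : ℤ) - h' := by
    intro n
    have e5 : (r : ℤ) * (A * n + β) - r' * (A' * n + β') =
        ((r : ℤ) * A - r' * A') * n + ((r : ℤ) * β - r' * β') := by ring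
    rw [e5, e1, e2, e3, e4]
    ring
  have hGd : (G : ℤ) ∣ (h : ℤ) - h' := by
    rw [← hid 0]
    refine dvd_sub (Dvd.dvd.mul_right ?_ _) (Dvd.dvd.mul_right ?_ _)
    · rw [ha]; push_cast; exact dvd_mul_right _ _
    · rw [hb]; push_cast; exact dvd_mul_right _ _
  obtain ⟨c, hc⟩ := hGd
  have hid' : ∀ n : ℤ, (a : ℤ) * (A * n + β) - b * (A' * n + β') = c := by
    intro n
    have h1 := hid n
    rw [hc, ha, hb] at h1
    push_cast at h1
    have h2 : (G : ℤ) * ((a : ℤ) * (A * n + β) - b * (A' * n + β')) = G * c := by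
      rw [← h1]; ring
    exact mul_left_cancel₀ hGz.ne' h2
  have hc0 : c ≠ 0 := by
    rintro rfl
    rw [mul_zero] at hc
    apply hne
    have : (h : ℤ) = h' := by linarith
    exact_mod_cast this
  have hbig : Big {q : ℕ | q.Prime ∧ ∃ p : ℕ, p.Prime ∧ (a : ℤ) * p - b * q = c} := by
    have hA' : 0 < A' := by
      have hrz : (0 : ℤ) < r := by exact_mod_cast hr
      have hrz' : (0 : ℤ) < r' := by exact_mod_cast hr'
      have : 0 < (r' : ℤ) * A' := by rw [e3, ← e1]; positivity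
      exact (pos_iff_pos_of_mul_pos this).1 hrz'
    have hfz : ((A'.toNat : ℕ) : ℤ) = A' := Int.toNat_of_nonneg hA'.le
    refine Big.affine hp A'.toNat β' (by omega) (fun n => (A' * (n : ℤ) + β').toNat) ?_ ?_
    · intro n hn
      rw [hfz]
      exact Int.toNat_of_nonneg hn.2.1.le
    · intro n hn
      obtain ⟨⟨h1, h2⟩, h3, h4⟩ := hn
      simp only at h1 h2 h3 h4
      refine ⟨?_, (A * (n : ℤ) + β).toNat, ?_, ?_⟩
      · rw [Nat.prime_iff_prime_int, Int.toNat_of_nonneg h3.le]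
        exact h4
      · rw [Nat.prime_iff_prime_int, Int.toNat_of_nonneg h1.le]
        exact h2
      · rw [Int.toNat_of_nonneg h1.le, Int.toNat_of_nonneg h3.le]
        exact hid' n
  obtain ⟨h1, h2, h3⟩ := conds hb0 hab hbig.infinite
  refine ⟨a, b, c, ha0, hb0, hc0, Nat.isCoprime_iff_coprime.2 hab, h1, h2, h3, ?_, ?_, ?_, hbig⟩
  · rw [← hG]; exact ha
  · rw [← hG]; exact hb
  · rw [← hG]; exact hc.symm

/-- For the slope `s / r` there is an equation of the question with a constant of size at most `C`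
and with many solutions. -/
def Slope (C r s : ℕ) : Prop := ∃ (a b : ℕ) (c : ℤ), 1 ≤ a ∧ 1 ≤ b ∧ c ≠ 0 ∧
  IsCoprime (a : ℤ) b ∧ IsCoprime (a : ℤ) c ∧ IsCoprime (b : ℤ) c ∧ ¬ (Odd a ∧ Odd b ∧ Odd c) ∧
  a * s = b * r ∧ |c| ≤ C ∧
  Big {q : ℕ | q.Prime ∧ ∃ p : ℕ, p.Prime ∧ (a : ℤ) * p - b * q = c}

theorem slope_of_pair {C r r' h h' : ℕ} {A β A' β' R T : ℤ} (hr : 1 ≤ r) (hr' : 1 ≤ r')
    (hA : 0 < A) (e1 : (r : ℤ) * A = R) (e2 : (r : ℤ) * β = T + h) (e3 : (r' : ℤ) * A' = R)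
    (e4 : (r' : ℤ) * β' = T + h') (hne : h ≠ h') (hC : h ≤ C) (hC' : h' ≤ C)
    (hp : PairBig (A, β) (A', β')) : Slope C r r' := by
  obtain ⟨a, b, c, h1, h2, h3, h4, h5, h6, h7, ha, hb, hc, hbig⟩ :=
    slope_core hr hr' hA e1 e2 e3 e4 hne hp
  have hG0 : 0 < Nat.gcd r r' := Nat.gcd_pos_of_pos_left _ hr
  have hGz : (0 : ℤ) < Nat.gcd r r' := by exact_mod_cast hG0
  refine ⟨a, b, c, h1, h2, h3, h4, h5, h6, h7, ?_, ?_, hbig⟩
  · obtain ⟨G, hG⟩ : ∃ G : ℕ, G = Nat.gcd r r' := ⟨_, rfl⟩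
    rw [← hG] at ha hb
    rw [ha, hb]; ring
  · have h8 : |(h : ℤ) - h'| ≤ C := by
      rw [abs_le]
      constructor <;> omega
    rw [← hc, abs_mul, abs_of_pos hGz] at h8
    have h9 : (0 : ℤ) ≤ |c| := abs_nonneg _
    nlinarith

end Pool.Agent.Y860.TS
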