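import Mathlib
import Pool.Agent.Y860.TS.Count
import Pool.Agent.Y860.TS.Forms
import Pool.Agent.Y860.TS.Generic
import Pool.Agent.Y860.TS.Slope

set_option autoImplicit false

/-! A third of all slopes have a bounded constant. -/

namespace Pool.Agent.Y860.TS

open Finset Filter Topology Pool.Agent.TH899.UG

open Classical in
/-- every tuple in general position has a third of good pairs -/
theorem generic_tuple {m z E K C : ℕ} {ε C3 δ : ℝ} (hm2 : 2 ≤ m) (hmz : m ≤ z)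
    (H3 : ∀ V : Finset (ℤ × ℤ), (∀ f ∈ V, 0 < f.1) →
      (∀ f : Fin 4 → ℤ × ℤ, (∀ i, f i ∈ V) → Pool.Agent.H362R2.CM.Adm f) →
      1 / 3 * (V.card : ℝ) ^ 2 - C3 * (V.card : ℝ) ^ (2 - δ) ≤
      (((V ×ˢ V).filter (fun x => PairBig x.1 x.2)).card : ℝ))
    (hm : C3 * (m : ℝ) ^ (-δ) + 1 / m ≤ ε / 3)
    (hC : C = z.factorial ^ E * (1 + z.factorial * K))
    (w : Fin m → ℕ × ℕ) (hw1 : ∀ i, 1 ≤ (w i).1) (hw2 : ∀ i, (w i).2 < K)
    (hQ : ∀ i, QQ z E (w i)) (hP : ∀ i j, i ≠ j → PP z E (w i) (w j)) :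
    (1 / 3 - ε / 3) * (m : ℝ) ^ 2 ≤ (((univ : Finset (Fin m × Fin m)).filter
        (fun x => x.1 ≠ x.2 ∧ Slope C (w x.1).1 (w x.2).1)).card : ℝ) := by
  have hMpos : 0 < z.factorial ^ E := pow_pos (Nat.factorial_pos z) _
  have hsr : ∀ i, Nat.gcd (w i).1 (z.factorial ^ E) ∣ (w i).1 := fun i => Nat.gcd_dvd_left _ _
  have hρ : ∀ i, Nat.Coprime ((w i).1 / Nat.gcd (w i).1 (z.factorial ^ E)) z.factorial :=
    fun i => rough_part (hw1 i) (hQ i)
  obtain ⟨A, β, R, T, hR, hA, hrA, hrβ, hadm⟩ := exists_forms (z := z) hmz (fun i => (w i).1)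
    (fun i => Nat.gcd (w i).1 (z.factorial ^ E))
    (fun i => (w i).1 / Nat.gcd (w i).1 (z.factorial ^ E)) (fun i => hv z E (w i)) E
    (fun i => Nat.gcd_dvd_right _ _) (fun i => (Nat.mul_div_cancel' (hsr i)).symm) hw1 hρ
    (fun i => ⟨(w i).2, rfl⟩)
    (by
      intro i j hij
      by_contra hcon
      obtain ⟨p, hp, h1, h2⟩ := Nat.Prime.not_coprime_iff_dvd.1 hcon
      have hzp : z < p := by
        by_contra hle
        have h3 : p ∣ z.factorial := (Nat.Prime.dvd_factorial hp).2 (not_lt.1 hle)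
        have h4 := Nat.dvd_gcd h1 h3
        have h5 := hρ i
        rw [Nat.Coprime] at h5
        rw [h5] at h4
        exact hp.one_lt.ne' (Nat.dvd_one.1 h4)
      exact (hP i j hij).1 p hp hzp ⟨h1.trans (Nat.div_dvd_of_dvd (hsr i)),
        h2.trans (Nat.div_dvd_of_dvd (hsr j))⟩)
    (fun i j hij l hl hzl hd => (hP i j hij).2.2 l hl hzl hd)
  set f : Fin m → ℤ × ℤ := fun i => (A i, β i) with hf
  have hinj : Function.Injective f := by
    intro i j hij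
    by_contra hne
    simp only [hf, Prod.mk.injEq] at hij
    apply (hP i j hne).2.1
    have e1 := hrA i
    have e2 := hrA j
    rw [← hij.1, ← e1] at e2
    have e3 : (((w j).1 : ℕ) : ℤ) = (w i).1 := mul_right_cancel₀ (hA i).ne' e2
    have e4 := hrβ i
    have e5 := hrβ j
    rw [← hij.2, e3, e4] at e5
    have e6 : (hv z E (w i) : ℤ) = hv z E (w j) := by linarith
    exact_mod_cast e6
  set V : Finset (ℤ × ℤ) := univ.image f with hV
  have hVc : V.card = m := by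
    rw [hV, card_image_of_injective _ hinj, card_univ, Fintype.card_fin]
  have h1 := H3 V (by
    intro g hg
    rw [hV, mem_image] at hg
    obtain ⟨i, _, rfl⟩ := hg
    exact hA i) (by
    intro g hg p hp
    obtain ⟨n, hn⟩ := hadm p hp
    refine ⟨n, fun i => ?_⟩
    have := hg i
    rw [hV, mem_image] at this
    obtain ⟨j, _, hj⟩ := this
    rw [← hj]
    exact hn j)
  rw [hVc] at h1
  set Gd : Finset (Fin m × Fin m) := (univ : Finset (Fin m × Fin m)).filter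
        (fun x => x.1 ≠ x.2 ∧ Slope C (w x.1).1 (w x.2).1) with hGd
  have h2 : ((V ×ˢ V).filter (fun x => PairBig x.1 x.2)).card ≤ Gd.card + m := by
    have e1 : (V ×ˢ V).filter (fun x => PairBig x.1 x.2) ⊆
        (Gd ∪ (univ : Finset (Fin m)).image (fun i => (i, i))).image
          (fun x : Fin m × Fin m => (f x.1, f x.2)) := by
      rintro ⟨g, g'⟩ hx
      rw [mem_filter, mem_product] at hx
      obtain ⟨⟨hg, hg'⟩, hpp⟩ := hx
      simp only at hg hg' hpp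
      rw [hV, mem_image] at hg hg'
      obtain ⟨i, _, rfl⟩ := hg
      obtain ⟨j, _, rfl⟩ := hg'
      rw [mem_image]
      refine ⟨(i, j), ?_, rfl⟩
      rw [mem_union]
      by_cases hij : i = j
      · right
        rw [mem_image]
        exact ⟨i, mem_univ _, by rw [hij]⟩
      · left
        rw [hGd, mem_filter]
        refine ⟨mem_univ _, hij, ?_⟩
        have hle : ∀ i, hv z E (w i) ≤ C := fun i => by rw [hC]; exact hv_le (hw2 i)
        exact slope_of_pair (hw1 i) (hw1 j) (hA i) (hrA i) (hrβ i) (hrA j) (hrβ j)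
          (hP i j hij).2.1 (hle i) (hle j) hpp
    refine (card_le_card e1).trans (card_image_le.trans ((card_union_le _ _).trans ?_))
    refine Nat.add_le_add_left ?_ _
    refine card_image_le.trans ?_
    rw [card_univ, Fintype.card_fin]
  have h3 : (((V ×ˢ V).filter (fun x => PairBig x.1 x.2)).card : ℝ) ≤ Gd.card + m := by
    exact_mod_cast h2
  have hm0 : (0 : ℝ) < m := by exact_mod_cast (by omega : 0 < m)
  have h4 : (m : ℝ) ^ ((2 : ℝ) - δ) = (m : ℝ) ^ 2 * (m : ℝ) ^ (-δ) := by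
    rw [sub_eq_add_neg, Real.rpow_add hm0]
    norm_num
  have h5 : C3 * (m : ℝ) ^ ((2 : ℝ) - δ) + m ≤ ε / 3 * (m : ℝ) ^ 2 := by
    rw [h4]
    have e1 : C3 * ((m : ℝ) ^ 2 * (m : ℝ) ^ (-δ)) + m = (C3 * (m : ℝ) ^ (-δ) + 1 / m) * (m : ℝ) ^ 2 := by
      field_simp
    rw [e1]
    exact mul_le_mul_of_nonneg_right hm (by positivity)
  linarith

/-- the choice of the parameters -/
theorem params {ε σ : ℝ} (hε : 0 < ε) (hσ : 0 < σ) (m : ℕ) (hm2 : 2 ≤ m) :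
    ∃ z E K C H₀ : ℕ, m ≤ z ∧ 1 ≤ K ∧ C = z.factorial ^ E * (1 + z.factorial * K) ∧ 1 ≤ H₀ ∧
      ∀ H : ℕ, H₀ ≤ H →
        m * (z * (1 / 2 ^ E + 1 / H) / σ) + (m : ℝ) ^ 2 * ((1 / H + 4 / z) / σ ^ 2 + 1 / K +
          1 / σ * (1 / z + (1 / K + 1 / H) * (1 + Real.log C) + C / H)) ≤ ε := by
  have hm0 : (0 : ℝ) < m := by exact_mod_cast (by omega : 0 < m)
  -- z
  obtain ⟨z, hzm, hz⟩ : ∃ z : ℕ, m ≤ z ∧ (m : ℝ) ^ 2 * (4 / σ ^ 2 + 1 / σ) / z ≤ ε / 4 := by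
    obtain ⟨z₀, hz₀⟩ := exists_nat_ge ((m : ℝ) ^ 2 * (4 / σ ^ 2 + 1 / σ) * (4 / ε))
    refine ⟨max m z₀, le_max_left _ _, ?_⟩
    have h1 : (m : ℝ) ^ 2 * (4 / σ ^ 2 + 1 / σ) * (4 / ε) ≤ ((max m z₀ : ℕ) : ℝ) :=
      hz₀.trans (by exact_mod_cast le_max_right _ _)
    have h2 : (0 : ℝ) < ((max m z₀ : ℕ) : ℝ) := by
      have : 0 < max m z₀ := lt_of_lt_of_le (by omega) (le_max_left _ _)
      exact_mod_cast this
    rw [div_le_iff₀ h2]
    calc (m : ℝ) ^ 2 * (4 / σ ^ 2 + 1 / σ)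
        = (ε / 4) * ((m : ℝ) ^ 2 * (4 / σ ^ 2 + 1 / σ) * (4 / ε)) := by field_simp
      _ ≤ (ε / 4) * ((max m z₀ : ℕ) : ℝ) := mul_le_mul_of_nonneg_left h1 (by positivity)
  have hz0 : (0 : ℝ) < z := by exact_mod_cast (by omega : 0 < z)
  -- E
  obtain ⟨E, hE⟩ : ∃ E : ℕ, (m : ℝ) * z / σ * (1 / 2) ^ E ≤ ε / 4 := by
    have ha : (0 : ℝ) < ε / 4 / (m * z / σ) := by positivity
    obtain ⟨E, hE⟩ := exists_pow_lt_of_lt_one ha (show (1 / 2 : ℝ) < 1 by norm_num)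
    refine ⟨E, ?_⟩
    rw [lt_div_iff₀ (by positivity)] at hE
    linarith
  obtain ⟨W, hW⟩ : ∃ W : ℕ, W = z.factorial := ⟨_, rfl⟩
  obtain ⟨M, hM⟩ : ∃ M : ℕ, M = z.factorial ^ E := ⟨_, rfl⟩
  have hWpos : 1 ≤ W := by rw [hW]; exact Nat.factorial_pos z
  have hMpos : 1 ≤ M := by rw [hM]; exact Nat.pos_of_ne_zero (pow_ne_zero _ (Nat.factorial_ne_zero z))
  -- K = n ^ 2
  obtain ⟨n, hn1, hn⟩ : ∃ n : ℕ, 1 ≤ n ∧ ((m : ℝ) ^ 2 + (m : ℝ) ^ 2 / σ * (1 + 2 * Real.sqrt (2 * M * W))) / n ≤ ε / 4 := by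
    obtain ⟨n₀, hn₀⟩ := exists_nat_ge
      (((m : ℝ) ^ 2 + (m : ℝ) ^ 2 / σ * (1 + 2 * Real.sqrt (2 * M * W))) * (4 / ε))
    refine ⟨max 1 n₀, le_max_left _ _, ?_⟩
    have h1 : ((m : ℝ) ^ 2 + (m : ℝ) ^ 2 / σ * (1 + 2 * Real.sqrt (2 * M * W))) * (4 / ε) ≤
        ((max 1 n₀ : ℕ) : ℝ) := hn₀.trans (by exact_mod_cast le_max_right _ _)
    have h2 : (0 : ℝ) < ((max 1 n₀ : ℕ) : ℝ) := by
      have : 0 < max 1 n₀ := lt_of_lt_of_le (by omega) (le_max_left _ _)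
      exact_mod_cast this
    rw [div_le_iff₀ h2]
    calc ((m : ℝ) ^ 2 + (m : ℝ) ^ 2 / σ * (1 + 2 * Real.sqrt (2 * M * W)))
        = (ε / 4) * (((m : ℝ) ^ 2 + (m : ℝ) ^ 2 / σ * (1 + 2 * Real.sqrt (2 * M * W))) * (4 / ε)) := by
          field_simp
      _ ≤ (ε / 4) * ((max 1 n₀ : ℕ) : ℝ) := mul_le_mul_of_nonneg_left h1 (by positivity)
  have hnr : (1 : ℝ) ≤ n := by exact_mod_cast hn1
  have hn0 : (0 : ℝ) < n := by linarith
  obtain ⟨K, hK⟩ : ∃ K : ℕ, K = n ^ 2 := ⟨_, rfl⟩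
  have hK1 : 1 ≤ K := by rw [hK]; exact Nat.one_le_pow _ _ hn1
  have hKr : (K : ℝ) = (n : ℝ) ^ 2 := by rw [hK]; push_cast; rfl
  obtain ⟨C, hC⟩ : ∃ C : ℕ, C = M * (1 + W * K) := ⟨_, rfl⟩
  have hC1 : 1 ≤ C := by rw [hC]; exact Nat.mul_pos hMpos (by positivity)
  have hlog : Real.log C ≤ 2 * Real.sqrt (2 * M * W) * n := by
    have h1 : Real.log C ≤ (C : ℝ) ^ (1 / 2 : ℝ) / (1 / 2) :=
      Real.log_le_rpow_div (Nat.cast_nonneg _) (by norm_num)
    have h2 : (C : ℝ) ≤ (2 * M * W) * (n : ℝ) ^ 2 := by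
      rw [hC]
      push_cast
      rw [hKr]
      have h3 : (1 : ℝ) ≤ W * (n : ℝ) ^ 2 := by
        have : 1 ≤ W * n ^ 2 := Nat.mul_pos hWpos (Nat.one_le_pow _ _ hn1)
        exact_mod_cast this
      have h4 : (0 : ℝ) ≤ M := Nat.cast_nonneg _
      nlinarith
    have h3 : (C : ℝ) ^ (1 / 2 : ℝ) ≤ Real.sqrt (2 * M * W) * n := by
      rw [← Real.sqrt_eq_rpow]
      calc Real.sqrt C ≤ Real.sqrt ((2 * M * W) * (n : ℝ) ^ 2) := Real.sqrt_le_sqrt h2
        _ = Real.sqrt (2 * M * W) * n := by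
          rw [Real.sqrt_mul (by positivity), Real.sqrt_sq hn0.le]
    linarith
  have hlog0 : 0 ≤ Real.log C := Real.log_nonneg (by exact_mod_cast hC1)
  have hKb : (m : ℝ) ^ 2 / K + (m : ℝ) ^ 2 / σ * (1 + Real.log C) / K ≤ ε / 4 := by
    refine le_trans ?_ hn
    rw [hKr]
    have h1 : 1 + Real.log C ≤ (1 + 2 * Real.sqrt (2 * M * W)) * n := by
      have := Real.sqrt_nonneg (2 * (M : ℝ) * W)
      nlinarith
    have h2 : (m : ℝ) ^ 2 ≤ (m : ℝ) ^ 2 * n := by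
      have : (0 : ℝ) ≤ (m : ℝ) ^ 2 := by positivity
      nlinarith
    rw [← add_div, div_le_div_iff₀ (by positivity) hn0]
    have h3 : (m : ℝ) ^ 2 + (m : ℝ) ^ 2 / σ * (1 + Real.log C) ≤
        ((m : ℝ) ^ 2 + (m : ℝ) ^ 2 / σ * (1 + 2 * Real.sqrt (2 * M * W))) * n := by
      have h4 : (m : ℝ) ^ 2 / σ * (1 + Real.log C) ≤
          (m : ℝ) ^ 2 / σ * ((1 + 2 * Real.sqrt (2 * M * W)) * n) :=
        mul_le_mul_of_nonneg_left h1 (by positivity)
      linarith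
    calc ((m : ℝ) ^ 2 + (m : ℝ) ^ 2 / σ * (1 + Real.log C)) * n
        ≤ (((m : ℝ) ^ 2 + (m : ℝ) ^ 2 / σ * (1 + 2 * Real.sqrt (2 * M * W))) * n) * n :=
          mul_le_mul_of_nonneg_right h3 hn0.le
      _ = _ := by ring
  -- H
  set B : ℝ := m * z / σ + (m : ℝ) ^ 2 / σ ^ 2 + (m : ℝ) ^ 2 / σ * (1 + Real.log C) +
    (m : ℝ) ^ 2 / σ * C with hB
  have hB0 : 0 ≤ B := by positivity
  obtain ⟨H₁, hH₁⟩ := exists_nat_ge (B * (4 / ε))
  refine ⟨z, E, K, C, max 1 H₁, hzm, hK1, by rw [hC, hM, hW], le_max_left _ _, fun H hH => ?_⟩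
  have hH0 : (0 : ℝ) < H := by
    have : 0 < H := lt_of_lt_of_le (by omega) ((le_max_left 1 H₁).trans hH)
    exact_mod_cast this
  have hHb : B / H ≤ ε / 4 := by
    rw [div_le_iff₀ hH0]
    have h1 : B * (4 / ε) ≤ H := hH₁.trans (by exact_mod_cast (le_max_right 1 H₁).trans hH)
    calc B = (ε / 4) * (B * (4 / ε)) := by field_simp
      _ ≤ (ε / 4) * H := mul_le_mul_of_nonneg_left h1 (by positivity)
  have hKpos : (0 : ℝ) < K := by exact_mod_cast hK1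
  have e1 : m * (z * (1 / 2 ^ E + 1 / H) / σ) + (m : ℝ) ^ 2 * ((1 / H + 4 / z) / σ ^ 2 + 1 / K +
          1 / σ * (1 / z + (1 / K + 1 / H) * (1 + Real.log C) + C / H)) =
      (m : ℝ) ^ 2 * (4 / σ ^ 2 + 1 / σ) / z + (m : ℝ) * z / σ * (1 / 2) ^ E +
      ((m : ℝ) ^ 2 / K + (m : ℝ) ^ 2 / σ * (1 + Real.log C) / K) + B / H := by
    rw [hB, one_div_pow]
    field_simp
    ring
  rw [e1]
  linarith

open Classical in
theorem main_slopes (ε σ : ℝ) (hε : 0 < ε) (hσ : 0 < σ) : ∃ C H₀ : ℕ, ∀ Y H : ℕ, H₀ ≤ H →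
    ∀ S : Finset ℕ, S ⊆ Ioc Y (Y + H) → σ * H ≤ S.card →
    (1 / 3 - ε) * (S.card : ℝ) ^ 2 ≤ (((S ×ˢ S).filter (fun x => Slope C x.1 x.2)).card : ℝ) := by
  by_cases hε3 : 1 / 3 ≤ ε
  · refine ⟨0, 0, fun Y H _ S _ _ => ?_⟩
    have h1 : (1 / 3 - ε) * (S.card : ℝ) ^ 2 ≤ 0 :=
      mul_nonpos_of_nonpos_of_nonneg (by linarith) (by positivity)
    exact h1.trans (Nat.cast_nonneg _)
  obtain ⟨C3, δ, hδ, H3⟩ := pairs_third
  obtain ⟨m, hm2, hm⟩ : ∃ m : ℕ, 2 ≤ m ∧ C3 * (m : ℝ) ^ (-δ) + 1 / m ≤ ε / 3 := by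
    have h1 : Tendsto (fun m : ℕ => C3 * (m : ℝ) ^ (-δ) + 1 / (m : ℝ)) atTop (𝓝 (C3 * 0 + 0)) := by
      refine Tendsto.add (Tendsto.const_mul _ ?_) tendsto_one_div_atTop_nhds_zero_nat
      exact (tendsto_rpow_neg_atTop hδ).comp tendsto_natCast_atTop_atTop
    rw [mul_zero, add_zero] at h1
    obtain ⟨m, h2, h3⟩ := ((h1.eventually (ge_mem_nhds (show (0 : ℝ) < ε / 3 by positivity))).and
      (eventually_ge_atTop 2)).exists
    exact ⟨m, h3, h2⟩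
  obtain ⟨z, E, K, C, H₀, hmz, hK1, hC, hH₀, hpar⟩ := params hε hσ m hm2
  refine ⟨C, H₀, fun Y H hH S hS hσS => ?_⟩
  have hz1 : 1 ≤ z := by omega
  have hzr : (0 : ℝ) < z := by exact_mod_cast (by omega : 0 < z)
  have hHpos : 0 < H := by omega
  have hHr : (0 : ℝ) < H := by exact_mod_cast hHpos
  have hKr : (0 : ℝ) < K := by exact_mod_cast hK1
  have hK1r : (1 : ℝ) ≤ K := by exact_mod_cast hK1
  set N : ℝ := (S.card : ℝ) with hN
  have hNpos : 0 < N := lt_of_lt_of_le (by positivity) hσS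
  have hHN : (H : ℝ) ≤ N / σ := by rw [le_div_iff₀ hσ]; linarith
  have hCpos : (0 : ℝ) ≤ C := Nat.cast_nonneg _
  have hC1 : 1 ≤ C := by
    rw [hC]
    exact Nat.mul_pos (pow_pos (Nat.factorial_pos z) _) (by positivity)
  have hlog0 : 0 ≤ Real.log C := Real.log_nonneg (by exact_mod_cast hC1)
  have hcard : ((S ×ˢ range K).card : ℝ) = N * K := by
    rw [card_product, card_range]; push_cast; rfl
  set η₁ : ℝ := z * (1 / 2 ^ E + 1 / H) / σ with hη₁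
  set η₂ : ℝ := (1 / H + 4 / z) / σ ^ 2 + 1 / K +
          1 / σ * (1 / z + (1 / K + 1 / H) * (1 + Real.log C) + C / H) with hη₂
  have hs := sampling (S ×ˢ range K) m hm2 (QQ z E) (PP z E) (fun y y' => Slope C y.1 y'.1)
    (1 / 3 - ε / 3) η₁ η₂ (by linarith) (by
      intro w hw hQ hP
      refine generic_tuple hm2 hmz H3 hm hC w (fun i => ?_) (fun i => ?_) hQ hP
      · have := (mem_product.1 (hw i)).1
        have := mem_Ioc.1 (hS this)
        omega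
      · exact mem_range.1 (mem_product.1 (hw i)).2) (by
      refine (count_Q S hS).trans ?_
      rw [hcard, hη₁]
      calc z * ((H : ℝ) / 2 ^ E + 1) * K = z * (1 / 2 ^ E + 1 / H) / σ * ((σ * H) * K) := by
            field_simp
        _ ≤ z * (1 / 2 ^ E + 1 / H) / σ * (N * K) := by gcongr) (by
      refine (count_P (E := E) (K := K) hz1 S hS hC).trans ?_
      rw [hcard, hη₂]
      have g1 : (H : ℝ) * K ^ 2 + 4 * (H : ℝ) ^ 2 * K ^ 2 / z ≤ (1 / H + 4 / z) / σ ^ 2 * (N * K) ^ 2 := by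
        calc (H : ℝ) * K ^ 2 + 4 * (H : ℝ) ^ 2 * K ^ 2 / z
            = (1 / H + 4 / z) * (K ^ 2 * (H : ℝ) ^ 2) := by field_simp
          _ ≤ (1 / H + 4 / z) * (K ^ 2 * (N / σ) ^ 2) := by gcongr
          _ = (1 / H + 4 / z) / σ ^ 2 * (N * K) ^ 2 := by field_simp
      have g2 : N ^ 2 * K = 1 / K * (N * K) ^ 2 := by field_simp
      have g3 : (K * N : ℝ) * ((H : ℝ) * K / z + (H + K) * (1 + Real.log C) + C) ≤
          1 / σ * (1 / z + (1 / K + 1 / H) * (1 + Real.log C) + C / H) * (N * K) ^ 2 := by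
        have f1 : (H : ℝ) * K / z + (H + K) * (1 + Real.log C) + C ≤
            H * K * (1 / z + (1 / K + 1 / H) * (1 + Real.log C) + C / H) := by
          have f2 : H * K * (1 / z + (1 / K + 1 / H) * (1 + Real.log C) + C / H) =
              (H : ℝ) * K / z + (H + K) * (1 + Real.log C) + C * K := by
            field_simp
          rw [f2]
          nlinarith
        calc (K * N : ℝ) * ((H : ℝ) * K / z + (H + K) * (1 + Real.log C) + C)
            ≤ (K * N : ℝ) * (H * K * (1 / z + (1 / K + 1 / H) * (1 + Real.log C) + C / H)) :=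
              mul_le_mul_of_nonneg_left f1 (by positivity)
          _ ≤ (K * N : ℝ) * (N / σ * K * (1 / z + (1 / K + 1 / H) * (1 + Real.log C) + C / H)) := by
              have f3 : 0 ≤ 1 / (z : ℝ) + (1 / K + 1 / H) * (1 + Real.log C) + C / H := by positivity
              gcongr
          _ = _ := by ring
      have g4 : ((1 / H + 4 / z) / σ ^ 2 + 1 / K +
          1 / σ * (1 / z + (1 / K + 1 / H) * (1 + Real.log C) + C / H)) * (N * K) ^ 2 =
          (1 / H + 4 / z) / σ ^ 2 * (N * K) ^ 2 + 1 / K * (N * K) ^ 2 +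
          1 / σ * (1 / z + (1 / K + 1 / H) * (1 + Real.log C) + C / H) * (N * K) ^ 2 := by ring
      rw [g4, ← g2]
      linarith)
  have hle : (m : ℝ) * η₁ + (m : ℝ) ^ 2 * η₂ ≤ ε := hpar H hH
  rw [hcard] at hs
  -- from pairs of points to pairs of integers
  have hcnt : ((((S ×ˢ range K) ×ˢ (S ×ˢ range K)).filter
      (fun x => Slope C x.1.1 x.2.1)).card : ℝ) ≤
      (((S ×ˢ S).filter (fun x => Slope C x.1 x.2)).card : ℝ) * (K : ℝ) ^ 2 := by
    have e1 : (((S ×ˢ range K) ×ˢ (S ×ˢ range K)).filter (fun x => Slope C x.1.1 x.2.1)).card ≤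
        (((S ×ˢ S).filter (fun x => Slope C x.1 x.2)) ×ˢ (range K ×ˢ range K)).card := by
      refine card_le_card_of_injOn (fun x => ((x.1.1, x.2.1), (x.1.2, x.2.2))) ?_ ?_
      · intro x hx
        rw [mem_coe, mem_filter] at hx
        simp only [mem_product] at hx
        simp only [mem_coe, mem_product, mem_filter]
        exact ⟨⟨⟨hx.1.1.1, hx.1.2.1⟩, hx.2⟩, hx.1.1.2, hx.1.2.2⟩
      · intro x _ y _ hxy
        simp only [Prod.mk.injEq] at hxy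
        exact Prod.ext (Prod.ext hxy.1.1 hxy.2.1) (Prod.ext hxy.1.2 hxy.2.2)
    rw [card_product, card_product, card_range, ← sq] at e1
    exact_mod_cast e1
  have h6 := hs.trans hcnt
  have h7 : (1 / 3 - ε / 3) * (1 - m * η₁ - (m : ℝ) ^ 2 * η₂) * N ^ 2 ≤
      (((S ×ˢ S).filter (fun x => Slope C x.1 x.2)).card : ℝ) := by
    have e1 : (1 / 3 - ε / 3) * (1 - m * η₁ - (m : ℝ) ^ 2 * η₂) * (N * K) ^ 2 =
        ((1 / 3 - ε / 3) * (1 - m * η₁ - (m : ℝ) ^ 2 * η₂) * N ^ 2) * (K : ℝ) ^ 2 := by ring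
    rw [e1] at h6
    exact le_of_mul_le_mul_right h6 (by positivity)
  refine le_trans ?_ h7
  have h8 : 1 - ε ≤ 1 - m * η₁ - (m : ℝ) ^ 2 * η₂ := by
    clear_value η₁ η₂
    linarith
  have h9 : (1 / 3 - ε) ≤ (1 / 3 - ε / 3) * (1 - m * η₁ - (m : ℝ) ^ 2 * η₂) := by
    have e1 : (1 / 3 - ε / 3) * (1 - ε) ≤ (1 / 3 - ε / 3) * (1 - m * η₁ - (m : ℝ) ^ 2 * η₂) :=
      mul_le_mul_of_nonneg_left h8 (by linarith)
    have e2 : (1 / 3 - ε / 3) * (1 - ε) = (1 / 3 - ε) + (ε / 3 + ε ^ 2 / 3) := by ring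
    have e3 : 0 ≤ ε / 3 + ε ^ 2 / 3 := by positivity
    rw [e2] at e1
    exact le_trans (le_add_of_nonneg_right e3) e1
  exact mul_le_mul_of_nonneg_right h9 (by positivity)

end Pool.Agent.Y860.TS
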