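import Mathlib
import Pool.Agent.Y860.TS.Main
import Pool.Agent.Y860.TS.BoxFour
import Pool.Agent.Y860.TS.HSet

set_option autoImplicit false

/-! A third of all slopes, up to bounded factors, for a fixed constant. -/

namespace Pool.Agent.Y860.TS

open Finset Filter Topology Pool.Agent.TH899.UG Pool.Agent.H732R3.BigQ

/-- An equation of the question with constant `± t n` and with `a / b = (α r) / (β s)`. -/
def Near (n C r s : ℕ) : Prop := ∃ (a b : ℕ) (c : ℤ) (t α β : ℕ), (1 ≤ t ∧ t ≤ C ∧ 1 ≤ α ∧ α ≤ C ∧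
  1 ≤ β ∧ β ≤ C ∧ (∀ l : ℕ, l.Prime → l ∣ t → l ≤ 3 ∧ l ∣ n) ∧ |c| = t * n ∧
  a * (β * s) = b * (α * r)) ∧ 1 ≤ a ∧ 1 ≤ b ∧ c ≠ 0 ∧
  IsCoprime (a : ℤ) b ∧ IsCoprime (a : ℤ) c ∧ IsCoprime (b : ℤ) c ∧ ¬ (Odd a ∧ Odd b ∧ Odd c) ∧
  Big {q : ℕ | q.Prime ∧ ∃ p : ℕ, p.Prime ∧ (a : ℤ) * p - b * q = c}

theorem near_of_pair {n t B M w w' s s' ρ ρ' h h' : ℕ} {A β A' β' R T : ℤ}
    (hM : 1 ≤ M) (hs : 1 ≤ s) (hs' : 1 ≤ s') (hsM : s ≤ M) (hsM' : s' ≤ M)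
    (hw : w = s * ρ) (hw' : w' = s' * ρ') (hρ : 1 ≤ ρ) (hρ' : 1 ≤ ρ') (hh : 1 ≤ h) (hh' : 1 ≤ h')
    (hhB : h ≤ B) (hhB' : h' ≤ B) (ht : 1 ≤ t) (htB : t ≤ B)
    (htl : ∀ l : ℕ, l.Prime → l ∣ t → l ≤ 3 ∧ l ∣ n)
    (hd : ((h : ℤ) - h').natAbs = n * t * Nat.gcd h h')
    (hc1 : Nat.Coprime ρ h') (hc2 : Nat.Coprime ρ ρ') (hc3 : Nat.Coprime ρ' h)
    (hA : 0 < A) (e1 : ((h * ρ : ℕ) : ℤ) * A = R) (e2 : ((h * ρ : ℕ) : ℤ) * β = T + h)
    (e3 : ((h' * ρ' : ℕ) : ℤ) * A' = R) (e4 : ((h' * ρ' : ℕ) : ℤ) * β' = T + h') (hne : h ≠ h')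
    (hp : PairBig (A, β) (A', β')) : Near n (B * M) w w' := by
  obtain ⟨a, b, c, h1, h2, h3, h4, h5, h6, h7, ha, hb, hc, hbig⟩ :=
    slope_core (Nat.mul_pos hh hρ) (Nat.mul_pos hh' hρ') hA e1 e2 e3 e4 hne hp
  have hG : Nat.gcd (h * ρ) (h' * ρ') = Nat.gcd h h' := by
    rw [Nat.Coprime.gcd_mul_right_cancel _ (Nat.Coprime.mul_right hc1 hc2)]
    exact Nat.Coprime.gcd_mul_right_cancel_right _ hc3
  rw [hG] at ha hb hc
  obtain ⟨G, hGdef⟩ : ∃ G : ℕ, G = Nat.gcd h h' := ⟨_, rfl⟩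
  have hGpos : 0 < G := by rw [hGdef]; exact Nat.gcd_pos_of_pos_left _ hh
  rw [← hGdef] at ha hb hc hd
  have hBM : B ≤ B * M := Nat.le_mul_of_pos_right _ hM
  refine ⟨a, b, c, t, h * s', h' * s, ⟨ht, htB.trans hBM, Nat.mul_pos hh hs',
    Nat.mul_le_mul hhB hsM', Nat.mul_pos hh' hs, Nat.mul_le_mul hhB' hsM, htl, ?_, ?_⟩,
    h1, h2, h3, h4, h5, h6, h7, hbig⟩
  · have g1 : (G : ℤ) * |c| = G * (t * n) := by
      have g2 : |(G : ℤ) * c| = ((n * t * G : ℕ) : ℤ) := by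
        rw [hc, ← hd, Int.natCast_natAbs]
      rw [abs_mul, Nat.abs_cast] at g2
      rw [g2]; push_cast; ring
    exact mul_left_cancel₀ (by exact_mod_cast hGpos.ne') g1
  · have g1 : G * (a * (h' * s * w')) = G * (b * (h * s' * w)) := by
      calc G * (a * (h' * s * w')) = (G * a) * (h' * s * w') := by ring
        _ = (h * ρ) * (h' * s * (s' * ρ')) := by rw [← ha, hw']
        _ = (h' * ρ') * (h * s' * (s * ρ)) := by ring
        _ = (G * b) * (h * s' * w) := by rw [← hb, hw]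
        _ = G * (b * (h * s' * w)) := by ring
    exact Nat.eq_of_mul_eq_mul_left hGpos g1

theorem generic_near {z E B K n : ℕ}
    (hK : ∀ (a b : Fin 4 → Fin K → ℤ), (∀ g i, 0 < a g i) →
      Function.Injective (fun x : Fin 4 × Fin K => (a x.1 x.2, b x.1 x.2)) →
      (∀ p : ℕ, p.Prime → ∃ n : ℤ, ∀ g i, ¬ ((p : ℤ) ∣ a g i * n + b g i)) →
      ∃ (S : Finset (Fin 4)) (c : Fin 4 → Fin K), 2 ≤ S.card ∧
        Big {n : ℕ | ∀ g ∈ S, 0 < a g (c g) * (n : ℤ) + b g (c g) ∧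
          Prime (a g (c g) * (n : ℤ) + b g (c g))})
    (h : Fin 4 → Fin K → ℕ) (hhB : ∀ g i, 1 ≤ h g i ∧ h g i ≤ B)
    (hinj : Function.Injective (fun x : Fin 4 × Fin K => h x.1 x.2))
    (hd : ∀ x y : Fin 4 × Fin K, x.1 ≠ y.1 → ∃ t : ℕ, 1 ≤ t ∧ t ≤ B ∧
      (∀ l : ℕ, l.Prime → l ∣ t → l ≤ 3 ∧ l ∣ n) ∧
      ((h x.1 x.2 : ℤ) - h y.1 y.2).natAbs = n * t * Nat.gcd (h x.1 x.2) (h y.1 y.2))
    (h4K : 4 * K ≤ z) (hBz : B ≤ z) (w : Fin 4 × Fin K → ℕ) (hw : ∀ x, 1 ≤ w x)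
    (hQ : ∀ x, ∀ p : ℕ, p.Prime → p ≤ z → ¬ p ^ E ∣ w x)
    (hP : ∀ x y, x ≠ y → ∀ l : ℕ, l.Prime → z < l → ¬ (l ∣ w x ∧ l ∣ w y)) :
    ∃ x y : Fin 4 × Fin K, x.1 ≠ y.1 ∧ Near n (B * z.factorial ^ E) (w x) (w y) ∧
      Near n (B * z.factorial ^ E) (w y) (w x) := by
  obtain ⟨M, hM⟩ : ∃ M : ℕ, M = z.factorial ^ E := ⟨_, rfl⟩
  have hMpos : 0 < M := by rw [hM]; exact pow_pos (Nat.factorial_pos z) _
  obtain ⟨s, hs⟩ : ∃ s : Fin 4 × Fin K → ℕ, ∀ x, s x = Nat.gcd (w x) M := ⟨_, fun _ => rfl⟩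
  obtain ⟨ρ, hρ⟩ : ∃ ρ : Fin 4 × Fin K → ℕ, ∀ x, ρ x = w x / Nat.gcd (w x) M := ⟨_, fun _ => rfl⟩
  have hsr : ∀ x, Nat.gcd (w x) M ∣ w x := fun x => Nat.gcd_dvd_left _ _
  have hwsρ : ∀ x, w x = s x * ρ x := fun x => by
    rw [hs, hρ]; exact (Nat.mul_div_cancel' (hsr x)).symm
  have hρW : ∀ x, Nat.Coprime (ρ x) z.factorial := fun x => by
    rw [hρ, hM]; exact rough_part (hw x) (hQ x)
  have hspos : ∀ x, 1 ≤ s x := fun x => by rw [hs]; exact Nat.gcd_pos_of_pos_left _ (hw x)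
  have hsM : ∀ x, s x ≤ M := fun x => by rw [hs]; exact Nat.gcd_le_right _ hMpos
  have hρpos : ∀ x, 1 ≤ ρ x := fun x => Nat.pos_of_ne_zero fun h0 => by
    have h1 := hwsρ x
    have h2 := hw x
    rw [h1, h0, mul_zero] at h2
    omega
  have hρρ : ∀ x y, x ≠ y → Nat.Coprime (ρ x) (ρ y) := by
    intro x y hxy
    by_contra hcon
    obtain ⟨p, hp, h1, h2⟩ := Nat.Prime.not_coprime_iff_dvd.1 hcon
    have hzp : z < p := by
      by_contra hle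
      have h3 : p ∣ z.factorial := (Nat.Prime.dvd_factorial hp).2 (not_lt.1 hle)
      have h4 := Nat.dvd_gcd h1 h3
      have h5 := hρW x
      rw [Nat.Coprime] at h5
      rw [h5] at h4
      exact hp.one_lt.ne' (Nat.dvd_one.1 h4)
    exact hP x y hxy p hp hzp ⟨by rw [hwsρ x]; exact Dvd.dvd.mul_left h1 _,
      by rw [hwsρ y]; exact Dvd.dvd.mul_left h2 _⟩
  have hhW : ∀ g i, h g i ∣ z.factorial := fun g i =>
    Nat.dvd_factorial (hhB g i).1 ((hhB g i).2.trans hBz)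
  -- the forms
  obtain ⟨e, he⟩ : ∃ e : Fin 4 × Fin K ≃ Fin (4 * K), e = finProdFinEquiv := ⟨_, rfl⟩
  obtain ⟨A, β, R, T, hR, hA, hrA, hrβ, hadm⟩ := exists_forms (m := 4 * K) (z := z) h4K
    (fun i => h (e.symm i).1 (e.symm i).2 * ρ (e.symm i))
    (fun i => h (e.symm i).1 (e.symm i).2) (fun i => ρ (e.symm i))
    (fun i => h (e.symm i).1 (e.symm i).2) 1
    (fun i => by rw [pow_one]; exact hhW _ _) (fun i => rfl)
    (fun i => Nat.mul_pos (hhB _ _).1 (hρpos _)) (fun i => hρW _)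
    (fun i => ⟨0, by ring⟩)
    (fun i j hij => hρρ _ _ (fun h' => hij (e.symm.injective h')))
    (by
      intro i j hij l hl hzl _ hdvd
      have hne : h (e.symm i).1 (e.symm i).2 ≠ h (e.symm j).1 (e.symm j).2 := fun h' =>
        hij (e.symm.injective (hinj h'))
      have h1 := (hhB (e.symm i).1 (e.symm i).2)
      have h2 := (hhB (e.symm j).1 (e.symm j).2)
      have h3 : |((h (e.symm i).1 (e.symm i).2 : ℕ) : ℤ) - (h (e.symm j).1 (e.symm j).2 : ℕ)| < l := by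
        rw [abs_lt]
        constructor <;> omega
      have h4 := Int.eq_zero_of_abs_lt_dvd hdvd h3
      apply hne
      omega)
  obtain ⟨Sg, cc, hSg, hBig⟩ := hK (fun g i => A (e (g, i))) (fun g i => β (e (g, i)))
    (fun g i => hA _) (by
      rintro ⟨g, i⟩ ⟨g', i'⟩ hxy
      simp only [Prod.mk.injEq] at hxy
      have e2 := hrβ (e (g, i))
      have e3 := hrβ (e (g', i'))
      have e4 := hrA (e (g, i))
      have e5 := hrA (e (g', i'))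
      simp only [Equiv.symm_apply_apply] at e2 e3 e4 e5
      rw [← hxy.1, ← e4] at e5
      have e6 := mul_right_cancel₀ (hA _).ne' e5
      rw [← hxy.2, e6, e2] at e3
      have e7 : h g i = h g' i' := by
        have : ((h g i : ℕ) : ℤ) = h g' i' := by linarith
        exact_mod_cast this
      exact hinj e7) (by
      intro p hp
      obtain ⟨ν, hν⟩ := hadm p hp
      exact ⟨ν, fun g i => hν (e (g, i))⟩)
  obtain ⟨g, hg, g', hg', hgg⟩ := Finset.one_lt_card.1 (show 1 < Sg.card by omega)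
  have hpair : ∀ g ∈ Sg, ∀ g' ∈ Sg, PairBig (A (e (g, cc g)), β (e (g, cc g)))
      (A (e (g', cc g')), β (e (g', cc g'))) := by
    intro g hg g' hg'
    refine Big.mono ?_ hBig
    intro ν hν
    exact ⟨hν g hg, hν g' hg'⟩
  have hnear : ∀ g ∈ Sg, ∀ g' ∈ Sg, g ≠ g' →
      Near n (B * z.factorial ^ E) (w (g, cc g)) (w (g', cc g')) := by
    intro g hg g' hg' hgg
    have hxy : ((g, cc g) : Fin 4 × Fin K) ≠ (g', cc g') := fun h' => hgg (Prod.mk.inj h').1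
    obtain ⟨t, ht1, htB, htl, htd⟩ := hd (g, cc g) (g', cc g') hgg
    have e2 := hrβ (e (g, cc g))
    have e3 := hrβ (e (g', cc g'))
    have e4 := hrA (e (g, cc g))
    have e5 := hrA (e (g', cc g'))
    simp only [Equiv.symm_apply_apply] at e2 e3 e4 e5
    rw [← hM]
    exact near_of_pair hMpos (hspos _) (hspos _) (hsM _) (hsM _) (hwsρ _) (hwsρ _) (hρpos _)
      (hρpos _) (hhB _ _).1 (hhB _ _).1 (hhB _ _).2 (hhB _ _).2 ht1 htB htl htd
      (Nat.Coprime.coprime_dvd_right (hhW _ _) (hρW _)) (hρρ _ _ hxy)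
      (Nat.Coprime.coprime_dvd_right (hhW _ _) (hρW _)) (hA _) e4 e2 e5 e3
      (fun h' => hxy (hinj h')) (hpair g hg g' hg')
  exact ⟨(g, cc g), (g', cc g'), hgg, hnear g hg g' hg' hgg, hnear g' hg' g hg hgg.symm⟩

/-- both orders of the pair -/
def Near2 (n C r s : ℕ) : Prop := Near n C r s ∧ Near n C s r

open Classical in
theorem main_near (n : ℕ) (hn : 1 ≤ n) (ε σ : ℝ) (hε : 0 < ε) (hσ : 0 < σ) : ∃ C H₀ : ℕ,
    ∀ Y H : ℕ, H₀ ≤ H → ∀ S : Finset ℕ, S ⊆ Ioc Y (Y + H) → σ * H ≤ S.card →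
    (1 / 3 - ε) * (S.card : ℝ) ^ 2 ≤
      (((S ×ˢ S).filter (fun x => Near2 n C x.1 x.2)).card : ℝ) := by
  by_cases hε3 : 1 / 3 ≤ ε
  · refine ⟨0, 0, fun Y H _ S _ _ => ?_⟩
    have h1 : (1 / 3 - ε) * (S.card : ℝ) ^ 2 ≤ 0 :=
      mul_nonpos_of_nonpos_of_nonneg (by linarith) (by positivity)
    exact h1.trans (Nat.cast_nonneg _)
  obtain ⟨K, hK1, hK⟩ := fourC
  obtain ⟨B, h, hhB, hinj, hd⟩ := exists_h n hn K
  obtain ⟨m₀, hbox⟩ := box4 K (ε / 3) (by linarith)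
  obtain ⟨m, hm⟩ : ∃ m : ℕ, m = m₀ + 4 * K + B + 2 := ⟨_, rfl⟩
  have hm2 : 2 ≤ m := by omega
  obtain ⟨z, E, K', C', H₀, hmz, hK1', hC', hH₀, hpar⟩ := params hε hσ m hm2
  refine ⟨B * z.factorial ^ E, H₀, fun Y H hH S hS hσS => ?_⟩
  have hz1 : 1 ≤ z := by omega
  have hzr : (0 : ℝ) < z := by exact_mod_cast (by omega : 0 < z)
  have hHpos : 0 < H := by omega
  have hHr : (0 : ℝ) < H := by exact_mod_cast hHpos
  set N : ℝ := (S.card : ℝ) with hN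
  have hNpos : 0 < N := lt_of_lt_of_le (by positivity) hσS
  have hHN : (H : ℝ) ≤ N / σ := by rw [le_div_iff₀ hσ]; linarith
  have hC1 : 1 ≤ C' := by
    rw [hC']
    exact Nat.mul_pos (pow_pos (Nat.factorial_pos z) _) (by positivity)
  have hlog0 : 0 ≤ Real.log C' := Real.log_nonneg (by exact_mod_cast hC1)
  have hcard : ((S ×ˢ range 1).card : ℝ) = N := by
    rw [card_product, card_range, mul_one]
  set η₁ : ℝ := z * (1 / 2 ^ E + 1 / H) / σ with hη₁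
  set η₂ : ℝ := (1 / H + 4 / z) / σ ^ 2 with hη₂
  have hs := sampling (S ×ˢ range 1) m hm2 (QQ z E)
    (fun y y' => ∀ l : ℕ, l.Prime → z < l → ¬ (l ∣ y.1 ∧ l ∣ y'.1))
    (fun y y' => Near2 n (B * z.factorial ^ E) y.1 y'.1)
    (1 / 3 - ε / 3) η₁ η₂ (by linarith) (by
      intro w hw hQ hP
      refine hbox m (by omega)
        (fun i j => Near2 n (B * z.factorial ^ E) (w i).1 (w j).1)
        (fun i j hij => ⟨hij.2, hij.1⟩) ?_
      intro A hA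
      obtain ⟨x, y, hxy, h1, h2⟩ := generic_near hK h hhB hinj hd (E := E)
        (show 4 * K ≤ z by omega) (show B ≤ z by omega) (fun x => (w (A x.1 x.2)).1)
        (fun x => by
          have := (mem_product.1 (hw (A x.1 x.2))).1
          have := mem_Ioc.1 (hS this)
          omega)
        (fun x => hQ (A x.1 x.2)) (fun x y hxy => hP _ _ (fun h' => hxy (hA h')))
      exact ⟨x.1, y.1, hxy, x.2, y.2, h1, h2⟩) (by
      refine (count_Q S hS).trans ?_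
      rw [hcard, hη₁]
      calc z * ((H : ℝ) / 2 ^ E + 1) * ((1 : ℕ) : ℝ) = z * (1 / 2 ^ E + 1 / H) / σ * (σ * H) := by
            push_cast
            field_simp
        _ ≤ z * (1 / 2 ^ E + 1 / H) / σ * N := by gcongr) (by
      have g0 : (((S ×ˢ range 1) ×ˢ (S ×ˢ range 1)).filter
          (fun x => ¬ ∀ l : ℕ, l.Prime → z < l → ¬ (l ∣ x.1.1 ∧ l ∣ x.2.1))).card ≤
          ((((S ×ˢ range 1) ×ˢ (S ×ˢ range 1))).filter
          (fun x => ∃ l : ℕ, l.Prime ∧ z < l ∧ l ∣ x.1.1 ∧ l ∣ x.2.1)).card := by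
        apply card_le_card
        intro x hx
        rw [mem_filter] at hx ⊢
        refine ⟨hx.1, ?_⟩
        by_contra hcon
        exact hx.2 (fun l hl hzl hd => hcon ⟨l, hl, hzl, hd.1, hd.2⟩)
      have g1 := count_P1 (z := z) (K := 1) hz1 S hS
      refine (Nat.cast_le.2 g0).trans (g1.trans ?_)
      rw [hcard, hη₂]
      calc (H : ℝ) * ((1 : ℕ) : ℝ) ^ 2 + 4 * (H : ℝ) ^ 2 * ((1 : ℕ) : ℝ) ^ 2 / z
            = (1 / H + 4 / z) * (H : ℝ) ^ 2 := by push_cast; field_simp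
          _ ≤ (1 / H + 4 / z) * (N / σ) ^ 2 := by gcongr
          _ = (1 / H + 4 / z) / σ ^ 2 * N ^ 2 := by field_simp)
  rw [hcard] at hs
  have hle : (m : ℝ) * η₁ + (m : ℝ) ^ 2 * η₂ ≤ ε := by
    refine le_trans ?_ (hpar H hH)
    rw [hη₁, hη₂]
    have g1 : (0 : ℝ) ≤ 1 / K' + 1 / σ * (1 / z + (1 / K' + 1 / H) * (1 + Real.log C') + C' / H) := by
      positivity
    have g2 : (1 / (H : ℝ) + 4 / z) / σ ^ 2 ≤ (1 / H + 4 / z) / σ ^ 2 + 1 / K' +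
          1 / σ * (1 / z + (1 / K' + 1 / H) * (1 + Real.log C') + C' / H) := by linarith
    have g3 : (m : ℝ) ^ 2 * ((1 / (H : ℝ) + 4 / z) / σ ^ 2) ≤ (m : ℝ) ^ 2 * ((1 / H + 4 / z) / σ ^ 2 +
        1 / K' + 1 / σ * (1 / z + (1 / K' + 1 / H) * (1 + Real.log C') + C' / H)) :=
      mul_le_mul_of_nonneg_left g2 (by positivity)
    linarith
  have hcnt : ((((S ×ˢ range 1) ×ˢ (S ×ˢ range 1)).filter
      (fun x => Near2 n (B * z.factorial ^ E) x.1.1 x.2.1)).card : ℝ) ≤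
      (((S ×ˢ S).filter (fun x => Near2 n (B * z.factorial ^ E) x.1 x.2)).card : ℝ) := by
    have e1 : (((S ×ˢ range 1) ×ˢ (S ×ˢ range 1)).filter
        (fun x => Near2 n (B * z.factorial ^ E) x.1.1 x.2.1)).card ≤
        ((S ×ˢ S).filter (fun x => Near2 n (B * z.factorial ^ E) x.1 x.2)).card := by
      refine card_le_card_of_injOn (fun x => (x.1.1, x.2.1)) ?_ ?_
      · intro x hx
        rw [mem_coe, mem_filter] at hx
        simp only [mem_product] at hx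
        simp only [mem_coe, mem_product, mem_filter]
        exact ⟨⟨hx.1.1.1, hx.1.2.1⟩, hx.2⟩
      · intro x hx y hy hxy
        rw [mem_coe, mem_filter] at hx hy
        simp only [mem_product, mem_range] at hx hy
        simp only [Prod.mk.injEq] at hxy
        exact Prod.ext (Prod.ext hxy.1 (by omega)) (Prod.ext hxy.2 (by omega))
    exact_mod_cast e1
  refine le_trans ?_ (hs.trans hcnt)
  have h8 : 1 - ε ≤ 1 - m * η₁ - (m : ℝ) ^ 2 * η₂ := by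
    clear_value η₁ η₂
    linarith
  have h9 : (1 / 3 - ε) ≤ (1 / 3 - ε / 3) * (1 - m * η₁ - (m : ℝ) ^ 2 * η₂) := by
    have e1 : (1 / 3 - ε / 3) * (1 - ε) ≤ (1 / 3 - ε / 3) * (1 - m * η₁ - (m : ℝ) ^ 2 * η₂) :=
      mul_le_mul_of_nonneg_left h8 (by linarith)
    have e2 : (1 / 3 - ε / 3) * (1 - ε) = (1 / 3 - ε) + (ε / 3 + ε ^ 2 / 3) := by ring
    have e3 : 0 ≤ ε / 3 + ε ^ 2 / 3 := by positivity
    rw [e2] at e1
    exact le_trans (le_add_of_nonneg_right e3) e1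
  exact mul_le_mul_of_nonneg_right h9 (by positivity)

end Pool.Agent.Y860.TS
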